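import Pool.Agent.MP_5daf37_lc.TL.Scat

/-!
Squared norms of blocks add up when there is no interference.
-/

open Matrix Finset

namespace Pool.Agent.MP_5daf37_lc.QT

open BN TL

variable {𝕜 : Type} [RCLike 𝕜] {l m n β V : Type} [Fintype l] [Fintype m] [Fintype n]
  [DecidableEq β]

/-- The part of `v` in the block `b`. -/
def part (blk : m → β) (v : m → 𝕜) (b : β) : m → 𝕜 := fun c => if blk c = b then v c else 0

omit [Fintype m] in
theorem part_ne {blk : m → β} {v : m → 𝕜} {b : β} {c : m} (h : part blk v b c ≠ 0) :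
    blk c = b ∧ v c ≠ 0 := by
  by_cases e : blk c = b
  · exact ⟨e, by rwa [part, if_pos e] at h⟩
  · exact absurd (if_neg e) h

theorem split (blk : m → β) (v z : m → 𝕜)
    (h : ∀ c c', v c ≠ 0 → v c' ≠ 0 → z c ≠ 0 → z c' ≠ 0 → blk c = blk c') :
    ‖v ⬝ᵥ z‖ ^ 2 ≤ ∑ b ∈ univ.image blk, ‖part blk v b ⬝ᵥ z‖ ^ 2 := by
  have e : v ⬝ᵥ z = ∑ b ∈ univ.image blk, part blk v b ⬝ᵥ z := by
    simp only [dotProduct]
    rw [sum_comm]
    exact sum_congr rfl fun c _ => by simp [part]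
  rw [e]
  refine normsq_sum_le _ _ fun a _ b _ ha hb => ?_
  obtain ⟨c, -, hc⟩ := exists_ne_zero_of_sum_ne_zero ha
  obtain ⟨c', -, hc'⟩ := exists_ne_zero_of_sum_ne_zero hb
  have h1 := part_ne (left_ne_zero_of_mul hc)
  have h2 := part_ne (left_ne_zero_of_mul hc')
  rw [← h1.1, ← h2.1]
  exact h c c' h1.2 h2.2 (right_ne_zero_of_mul hc) (right_ne_zero_of_mul hc')

theorem sum_part (blk : m → β) (v : m → 𝕜) (q : m → ℝ) :
    ∑ b ∈ univ.image blk, ∑ c, q c * ‖part blk v b c‖ ^ 2 = ∑ c, q c * ‖v c‖ ^ 2 := by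
  rw [sum_comm]
  refine sum_congr rfl fun c _ => ?_
  rw [sum_eq_single_of_mem (blk c) (mem_image_of_mem _ (mem_univ c)) fun b _ hb => by
    simp [part, hb.symm]]
  simp [part]

theorem avg_le {k : ℕ} (hk : 0 < k) {f : ℕ → 𝕜} {c : ℝ} (h : ∀ j < k, ‖f j‖ ^ 2 ≤ c) :
    ‖(((k : ℝ)⁻¹ : ℝ) : 𝕜) * ∑ j ∈ range k, f j‖ ^ 2 ≤ c := by
  have := sq_avg (m := Unit) (l := Unit) hk (f := fun j => of fun _ _ => f j) () () h
  simpa [Matrix.sum_apply] using this

/-- No two block walks of at most `k` steps from one block end at the same place. -/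
structure Free (X : Matrix m m 𝕜) (Y : Matrix m n 𝕜) (k : ℕ) (blk : m → β)
    (R : β → ℕ → β → Prop) (pos pre : β → V) (pre' : n → V) : Prop where
  zero : ∀ b, R b 0 b
  step : ∀ b i c t, R b i (blk c) → X c t ≠ 0 → R b (i + 1) (blk t)
  h1 : ∀ c t, X c t ≠ 0 → pos (blk c) = pre (blk t)
  h2 : ∀ c a, Y c a ≠ 0 → pos (blk c) = pre' a
  uniq : ∀ b i j c c', R b i c → R b j c' → i ≤ k → j ≤ k → pos c = pos c' → i = j ∧ c = c'
  row : ∀ b u, (∀ c, u c ≠ 0 → blk c = b) → nsq (u ᵥ* X) + nsq (u ᵥ* Y) ≤ nsq u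

variable [DecidableEq m] {X : Matrix m m 𝕜} {Y : Matrix m n 𝕜} {k : ℕ} {blk : m → β}
  {R : β → ℕ → β → Prop} {pos pre : β → V} {pre' : n → V}

namespace Free

variable (F : Free X Y k blk R pos pre pre')
include F

omit [DecidableEq β] in
theorem reach {b : β} {i : ℕ} {c : m} (h : R b i (blk c)) (j : ℕ) (t : m)
    (e : (X ^ j) c t ≠ 0) : R b (i + j) (blk t) := by
  induction j generalizing t with
  | zero =>
    by_cases e' : c = t
    · exact e' ▸ h
    · simp [e'] at e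
  | succ j ih =>
    rw [pow_succ, mul_apply] at e
    obtain ⟨a, -, ha⟩ := exists_ne_zero_of_sum_ne_zero e
    exact F.step b _ a t (ih a (left_ne_zero_of_mul ha)) (right_ne_zero_of_mul ha)

omit [DecidableEq β] in
theorem reach' {b : β} {u : m → 𝕜} (h : ∀ c, u c ≠ 0 → blk c = b) (j : ℕ) (t : m)
    (e : (u ᵥ* X ^ j) t ≠ 0) : R b j (blk t) := by
  obtain ⟨c, -, hc⟩ := exists_ne_zero_of_sum_ne_zero e
  have := F.reach (F.zero (blk c)) j t (right_ne_zero_of_mul hc)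
  rwa [zero_add, h c (left_ne_zero_of_mul hc)] at this

omit [DecidableEq m] in
theorem row_step {b : β} {j : ℕ} (hj : j ≤ k) {v : m → 𝕜} (h : ∀ c, v c ≠ 0 → R b j (blk c)) :
    nsq (v ᵥ* X) + nsq (v ᵥ* Y) ≤ nsq v := by
  have h1 : nsq (v ᵥ* X) ≤ ∑ b ∈ univ.image blk, nsq (part blk v b ᵥ* X) := by
    simp only [nsq]
    rw [sum_comm]
    exact sum_le_sum fun t _ => split blk v _ fun c c' a a' e e' =>
      (F.uniq b j j _ _ (h c a) (h c' a') hj hj ((F.h1 c t e).trans (F.h1 c' t e').symm)).2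
  have h2 : nsq (v ᵥ* Y) ≤ ∑ b ∈ univ.image blk, nsq (part blk v b ᵥ* Y) := by
    simp only [nsq]
    rw [sum_comm]
    exact sum_le_sum fun t _ => split blk v _ fun c c' a a' e e' =>
      (F.uniq b j j _ _ (h c a) (h c' a') hj hj ((F.h2 c t e).trans (F.h2 c' t e').symm)).2
  refine (add_le_add h1 h2).trans ?_
  rw [← sum_add_distrib]
  refine (sum_le_sum fun b _ => F.row b _ fun c hc => (part_ne hc).1).trans (le_of_eq ?_)
  simpa [nsq] using sum_part blk v 1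

theorem tele {b : β} {u : m → 𝕜} (h : ∀ c, u c ≠ 0 → blk c = b) {j : ℕ} (hj : j ≤ k) :
    ∑ i ∈ range (j + 1), nsq (u ᵥ* (X ^ i * Y)) + nsq (u ᵥ* X ^ (j + 1)) ≤
      nsq (u ᵥ* X) + nsq (u ᵥ* Y) := by
  induction j with
  | zero => simp [add_comm]
  | succ j ih =>
    have := F.row_step hj (F.reach' h (j + 1))
    rw [vecMul_vecMul, vecMul_vecMul, ← pow_succ] at this
    rw [sum_range_succ]
    linarith [ih (by omega)]

theorem avg_row (hk : 0 < k) {b : β} {u : m → 𝕜} (h : ∀ c, u c ≠ 0 → blk c = b) :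
    nsq (u ᵥ* ((((k : ℝ)⁻¹ : ℝ) : 𝕜) • ∑ j ∈ range k, ∑ i ∈ range (j + 1), X ^ i * Y)) ≤
      nsq (u ᵥ* X) + nsq (u ᵥ* Y) := by
  obtain ⟨j, rfl⟩ : ∃ j, k = j + 1 := ⟨k - 1, by omega⟩
  refine le_trans ?_ ((le_add_of_nonneg_right (nsq_nonneg _)).trans (F.tele h j.le_succ))
  simp only [nsq]
  rw [sum_comm]
  refine sum_le_sum fun a _ => ?_
  rw [vecMul_smul, Pi.smul_apply, smul_eq_mul, vecMul_sum, Finset.sum_apply]
  refine avg_le hk fun i hi => ?_
  rw [vecMul_sum, Finset.sum_apply]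
  refine (normsq_sum_le _ _ fun x hx y hy e e' => ?_).trans
    (sum_le_sum_of_subset_of_nonneg (range_mono hi) fun _ _ _ => sq_nonneg _)
  rw [← vecMul_vecMul] at e e'
  obtain ⟨c, -, hc⟩ := exists_ne_zero_of_sum_ne_zero e
  obtain ⟨c', -, hc'⟩ := exists_ne_zero_of_sum_ne_zero e'
  have := mem_range.1 hx
  have := mem_range.1 hy
  exact (F.uniq b x y _ _ (F.reach' h x c (left_ne_zero_of_mul hc))
    (F.reach' h y c' (left_ne_zero_of_mul hc')) (by omega) (by omega)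
    ((F.h2 c a (right_ne_zero_of_mul hc)).trans (F.h2 c' a (right_ne_zero_of_mul hc')).symm)).1

omit [DecidableEq β] in
theorem avg_supp {s : m} {a : n} {c : 𝕜}
    (h : (c • ∑ j ∈ range k, ∑ i ∈ range (j + 1), X ^ i * Y) s a ≠ 0) :
    ∃ i ≤ k, ∃ b, R (blk s) i b ∧ pos b = pre' a := by
  have h1 := right_ne_zero_of_mul h
  rw [Matrix.sum_apply] at h1
  obtain ⟨j, hj, h1⟩ := exists_ne_zero_of_sum_ne_zero h1
  rw [Matrix.sum_apply] at h1
  obtain ⟨i, hi, h1⟩ := exists_ne_zero_of_sum_ne_zero h1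
  obtain ⟨t, -, h1⟩ := exists_ne_zero_of_sum_ne_zero h1
  have := mem_range.1 hj
  have := mem_range.1 hi
  exact ⟨i, by omega, blk t, by simpa using F.reach (F.zero _) i t (left_ne_zero_of_mul h1),
    F.h2 t a (right_ne_zero_of_mul h1)⟩

omit [DecidableEq β] in
theorem sum_le (s t : m) :
    ‖(∑ j ∈ range k, X ^ (j + 1)) s t‖ ^ 2 ≤ ∑ j ∈ range k, ‖(X ^ (j + 1)) s t‖ ^ 2 := by
  rw [Matrix.sum_apply]
  refine normsq_sum_le _ _ fun a ha b hb h1 h2 => ?_
  have := mem_range.1 ha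
  have := mem_range.1 hb
  have := (F.uniq _ _ _ _ _ (F.reach (F.zero _) _ t h1) (F.reach (F.zero _) _ t h2) (by omega)
    (by omega) rfl).1
  omega

theorem sum_row (s : m) : ∑ t, ‖(∑ j ∈ range k, X ^ (j + 1)) s t‖ ^ 2 ≤ k := by
  refine (sum_le_sum fun t _ => F.sum_le s t).trans ?_
  rw [sum_comm]
  refine (sum_le_sum (g := fun _ => (1 : ℝ)) fun j hj => ?_).trans (by simp)
  have h : ∀ c, (Pi.single s 1 : m → 𝕜) c ≠ 0 → blk c = blk s := fun c hc =>
    congrArg blk (by_contra fun e => hc (Pi.single_eq_of_ne e _))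
  have h1 := ((le_add_of_nonneg_left (sum_nonneg fun _ _ => nsq_nonneg _)).trans
    (F.tele h (mem_range.1 hj).le)).trans (F.row _ _ h)
  rw [single_one_vecMul] at h1
  exact h1.trans (by simp [nsq, Pi.single_apply, apply_ite norm])

omit [DecidableEq β] in
theorem back {b : β} {i j : ℕ} (hj : i + j ≤ k + 1) {c c' t t' : m} (h : R b i (blk c))
    (h' : R b i (blk c')) (e : (X ^ j) c t ≠ 0) (e' : (X ^ j) c' t' ≠ 0) (ht : blk t = blk t') :
    blk c = blk c' := by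
  induction j generalizing t t' with
  | zero =>
    obtain rfl : c = t := by_contra fun a => e (by simp [a])
    obtain rfl : c' = t' := by_contra fun a => e' (by simp [a])
    exact ht
  | succ j ih =>
    rw [pow_succ, mul_apply] at e e'
    obtain ⟨a, -, ha⟩ := exists_ne_zero_of_sum_ne_zero e
    obtain ⟨a', -, ha'⟩ := exists_ne_zero_of_sum_ne_zero e'
    refine ih (by omega) (left_ne_zero_of_mul ha) (left_ne_zero_of_mul ha')
      (F.uniq b _ _ _ _ (F.reach h j a (left_ne_zero_of_mul ha))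
        (F.reach h' j a' (left_ne_zero_of_mul ha')) (by omega) (by omega) ?_).2
    rw [F.h1 _ _ (right_ne_zero_of_mul ha), F.h1 _ _ (right_ne_zero_of_mul ha'), ht]

theorem sum_col {p q : m → ℝ} (p0 : ∀ s, 0 ≤ p s) (q0 : ∀ s, 0 ≤ q s)
    (col : ∀ b y, (∀ c, y c ≠ 0 → blk c = b) →
      ∑ s, (p s + q s) * ‖(X *ᵥ y) s‖ ^ 2 ≤ ∑ s, q s * ‖y s‖ ^ 2) (t : m) :
    ∑ s, p s * ‖(∑ j ∈ range k, X ^ (j + 1)) s t‖ ^ 2 ≤ q t := by
  have h1 : ∀ j ≤ k, ∑ s, (p s + q s) * ‖(X ^ (j + 1)) s t‖ ^ 2 ≤ ∑ s, q s * ‖(X ^ j) s t‖ ^ 2 :=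
    fun j hj => by
    rw [← sum_part blk (fun s => (X ^ j) s t) q]
    refine le_trans ?_ (sum_le_sum fun b _ => col b _ fun c hc => (part_ne hc).1)
    rw [sum_comm]
    refine sum_le_sum fun s _ => ?_
    rw [← mul_sum, pow_succ' X j, mul_apply]
    refine mul_le_mul_of_nonneg_left ?_ (add_nonneg (p0 s) (q0 s))
    have := split blk (fun c => (X ^ j) c t) (X s) fun c c' a a' e e' =>
      F.back (i := 1) (by omega) (F.step _ 0 s c (F.zero _) e) (F.step _ 0 s c' (F.zero _) e')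
        a a' rfl
    simp only [dotProduct_comm _ (X s)] at this
    exact this
  have h2 : ∀ j ≤ k, ∑ i ∈ range j, ∑ s, p s * ‖(X ^ (i + 1)) s t‖ ^ 2 +
      ∑ s, q s * ‖(X ^ j) s t‖ ^ 2 ≤ q t := fun j hj => by
    induction j with
    | zero => simp [one_apply, apply_ite norm]
    | succ j ih =>
      have := h1 j (by omega)
      simp only [add_mul, sum_add_distrib] at this
      rw [sum_range_succ]
      linarith [ih (by omega)]
  refine le_trans ?_ ((le_add_of_nonneg_right (sum_nonneg fun s _ =>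
    mul_nonneg (q0 s) (sq_nonneg _))).trans (h2 k le_rfl))
  rw [sum_comm]
  refine sum_le_sum fun s _ => ?_
  rw [← mul_sum]
  exact mul_le_mul_of_nonneg_left (F.sum_le s t) (p0 s)

end Free

end Pool.Agent.MP_5daf37_lc.QT
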