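import Pool.Agent.MP_5daf37_lc.QT.Net

/-!
From circuits to networks.
-/

open Matrix Finset

namespace Pool.Agent.MP_5daf37_lc.QT

open BN TL

variable {𝕜 : Type} [RCLike 𝕜] {n m l p q : ℕ}

theorem exists_darts {E : Type} [Fintype E] {G : SimpleGraph ℕ} {tl hd : E → ℕ}
    (adj : ∀ e, G.Adj (tl e) (hd e)) :
    ∃ (O : Finset (ℕ × ℕ)) (en : Bool × O → ℕ) (dt : E → Bool × O),
      (∀ b o, G.Adj (en (b, o)) (en (!b, o))) ∧
      (∀ h h' : Bool × O, en h = en h' → en (!h.1, h.2) = en (!h'.1, h'.2) → h = h') ∧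
      (∀ e, en (dt e) = tl e) ∧ ∀ e, en (!(dt e).1, (dt e).2) = hd e := by
  let f : E → ℕ × ℕ := fun e => if tl e < hd e then (tl e, hd e) else (hd e, tl e)
  have h1 : ∀ o : univ.image f, G.Adj o.1.1 o.1.2 ∧ o.1.1 < o.1.2 := fun o => by
    obtain ⟨e, -, he⟩ := mem_image.1 o.2
    rw [← he]
    have := (adj e).ne
    by_cases h : tl e < hd e <;> simp only [f, h, if_true, if_false]
    exacts [⟨adj e, trivial⟩, ⟨(adj e).symm, by omega⟩]
  refine ⟨univ.image f, fun h => if h.1 then h.2.1.1 else h.2.1.2,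
    fun e => (decide (tl e < hd e), ⟨f e, mem_image_of_mem f (mem_univ e)⟩), ?_, ?_, fun e => ?_,
    fun e => ?_⟩
  · rintro (_ | _) o
    exacts [(h1 o).1.symm, (h1 o).1]
  · rintro ⟨_ | _, o⟩ ⟨_ | _, o'⟩ a b <;> have := (h1 o).2 <;> have := (h1 o').2 <;>
      simp at a b ⊢ <;> first | omega | exact Subtype.ext (Prod.ext ‹_› ‹_›)
  all_goals by_cases h : tl e < hd e <;> simp [f, h]

theorem main (C : Circuit 𝕜 n p q) (A : Matrix (Fin n) (Fin n) 𝕜) (hC : C.Computes A)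
    (r : Fin l → Fin n) (c : Fin m → Fin n) (U : Matrix (Fin l) (Fin m) 𝕜) (γ : ℝ) (hγ : 0 < γ)
    (hU : ∀ x : Fin m → 𝕜, γ * ∑ j, ‖x j‖ ^ 2 ≤ ∑ i, ‖U.mulVec x i‖ ^ 2 ∧
      ∑ i, ‖U.mulVec x i‖ ^ 2 ≤ ∑ j, ‖x j‖ ^ 2)
    (α : Fin l → 𝕜) (β : Fin m → 𝕜) (hα : ∀ i, α i ≠ 0) (hβ : ∀ j, β j ≠ 0)
    (hA : ∀ i j, A (r i) (c j) = α i * U i j * β j)
    (π : Fin p → ℕ) (S : Finset (Fin p)) (hS : 32 * (S.card : ℝ) ≤ γ * m)
    (s : Fin m → ℕ) (t : Fin l → ℕ)
    (h1 : ∀ j v, (∀ e, C.head e ≠ v) → C.label v = c j → π v = s j)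
    (h2 : ∀ i, π (C.output (r i)) = t i) (k : ℕ)
    (h3 : ((2 * k + 2 : ℕ) : ℕ∞) < (C.partGraph π S).egirth)
    (h4 : 256 * ∑ a ∈ univ.image s ∪ univ.image t, ∑ i with (C.partGraph π S).edist (t i) a ≤ k,
      ∑ j with (C.partGraph π S).edist (s j) a ≤ k, ‖U i j‖ ^ 2 ≤ γ ^ 2 * m) :
    γ ^ 2 * k * m ≤ 64 * {e | C.Live π S e}.ncard := by
  classical
  obtain ⟨ρ, hρ⟩ := exists_rank C
  choose val v1 v2 v3 using fun j => hC (Pi.single (c j) (β j)⁻¹)
  let Z : Matrix (Fin p) (Fin m) 𝕜 := of fun v j => val j v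
  let B : Matrix (Fin p) (Fin m) 𝕜 :=
    of fun v j => if (∀ e, C.head e ≠ v) ∧ C.label v = c j then (β j)⁻¹ else 0
  let O : Matrix (Fin l) (Fin p) 𝕜 := of fun i v => if C.output (r i) = v then (α i)⁻¹ else 0
  have e1 : Z = Wm C C.weight * Z + B := by
    ext v j
    rw [Matrix.add_apply, mul_apply]
    simp only [Z, B, of_apply]
    rw [Wm_mulVec]
    by_cases hv : ∀ e, C.head e ≠ v
    · rw [v1 j v hv, sum_eq_zero fun e he => absurd (mem_filter.1 he).2 (hv e), zero_add,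
        Pi.single_apply]
      simp [hv]
    · rw [if_neg fun h' => hv h'.1, ← v2 j v (by simpa using hv), add_zero]
  have e2 : O * Z = U := by
    ext i j
    have := hα i
    have := hβ j
    simp [mul_apply, O, Z, v3, hA]
    field_simp
  let A0 : Matrix S (Fin m) 𝕜 := Z.submatrix (↑) id
  let wi : Fin q → 𝕜 := fun e =>
    if C.tail e ∉ S ∧ C.head e ∉ S ∧ π (C.tail e) = π (C.head e) then C.weight e else 0
  let we : Fin q → 𝕜 := fun e => if C.Live π S e then C.weight e else 0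
  have e3 : ∀ x, A0 *ᵥ x = 0 →
      (1 - Wm C wi) *ᵥ Z *ᵥ x = Wm C we *ᵥ Z *ᵥ x + B *ᵥ x := fun x h => by
    have h6 : ∀ v ∈ S, (Z *ᵥ x) v = 0 := fun v hv => congrFun h ⟨v, hv⟩
    have h7 : Z *ᵥ x = Wm C C.weight *ᵥ Z *ᵥ x + B *ᵥ x := by
      conv_lhs => rw [e1, add_mulVec, ← mulVec_mulVec]
    have h8 : ∀ v, (∃ e, C.head e = v) → (B *ᵥ x) v = 0 := fun v ⟨e, he⟩ => by
      have : ¬ ∀ e, C.head e ≠ v := fun h' => h' e he
      simp [B, mulVec, dotProduct, this]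
    generalize Z *ᵥ x = z, B *ᵥ x = b at h6 h7 h8 ⊢
    funext v
    have h9 := congrFun h7 v
    have h10 : ∀ w, (Wm C w *ᵥ z) v = ∑ e with C.head e = v, w e * z (C.tail e) :=
      fun w => Wm_mulVec C w z v
    rw [sub_mulVec, one_mulVec, Pi.sub_apply, sub_eq_iff_eq_add', Pi.add_apply, ← add_assoc, h10,
      h10, ← sum_add_distrib]
    rw [Pi.add_apply, h10] at h9
    by_cases hv : v ∈ S ∧ ∃ e, C.head e = v
    · rw [h6 v hv.1, h8 v hv.2, add_zero, sum_eq_zero fun e he => ?_]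
      have : C.head e ∈ S := (mem_filter.1 he).2 ▸ hv.1
      simp [wi, we, Circuit.Live, this]
    · rw [h9]
      congr 1
      refine sum_congr rfl fun e he => ?_
      have h11 : C.head e ∉ S := fun h' => hv ⟨(mem_filter.1 he).2 ▸ h', e, (mem_filter.1 he).2⟩
      by_cases h12 : C.tail e ∈ S
      · simp [h6 _ h12]
      · by_cases h13 : π (C.tail e) = π (C.head e) <;> simp [wi, we, Circuit.Live, h11, h12, h13]
  have d1 : (1 - Wm C wi).det ≠ 0 := by
    rw [det_one_sub C _ fun v u h => let ⟨e, a, b, _⟩ := Wm_ne C h; ⟨e, a, b⟩]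
    exact one_ne_zero
  set R := (1 - Wm C wi)⁻¹ with hR
  have d2 : ∀ v u, (1 - Wm C wi) v u ≠ 0 → π v = π u ∧ ρ u ≤ ρ v := fun v u h => by
    by_cases e : v = u
    · exact ⟨by rw [e], by rw [e]⟩
    · rw [Matrix.sub_apply, one_apply_ne e, zero_sub, neg_ne_zero] at h
      obtain ⟨f, rfl, rfl, h6⟩ := Wm_ne C h
      exact ⟨(by_contra fun h' => h6 (if_neg fun h'' => h' h''.2.2.symm)), (hρ f).le⟩
  have d3 : ∀ v u, R v u ≠ 0 → π v = π u ∧ ρ u ≤ ρ v := fun v u h =>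
    ⟨le_antisymm (inv_loc d1 (fun a b e => (d2 a b e).1.le) v u h)
      (inv_loc d1 (b := OrderDual.toDual ∘ π) (fun a b e => (d2 a b e).1.ge) v u h),
      inv_loc d1 (b := OrderDual.toDual ∘ ρ) (fun a b e => (d2 a b e).2) v u h⟩
  let E := {e : Fin q // C.Live π S e}
  let Hd : Matrix (Fin p) E 𝕜 := of fun v w => if C.head w = v then C.weight w else 0
  let Tl : Matrix E (Fin p) 𝕜 := of fun w u => if C.tail w = u then 1 else 0
  have w2 : ∀ z w, (Tl *ᵥ z) w = z (C.tail w) := fun z w => by simp [Tl, mulVec, dotProduct]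
  have e4 : ∀ x, A0 *ᵥ x = 0 → Z *ᵥ x = R *ᵥ (Hd *ᵥ Tl *ᵥ Z *ᵥ x + B *ᵥ x) := fun x h => by
    have h6 : Hd *ᵥ Tl *ᵥ Z *ᵥ x = Wm C we *ᵥ Z *ᵥ x := by
      funext v
      refine Eq.trans ?_ (Wm_mulVec C we (Z *ᵥ x) v).symm
      show ∑ w, Hd v w * (Tl *ᵥ Z *ᵥ x) w = _
      simp only [w2, Hd, of_apply]
      rw [← sum_subtype (univ.filter (C.Live π S)) (by simp) fun e =>
        (if C.head e = v then C.weight e else 0) * (Z *ᵥ x) (C.tail e), sum_filter, sum_filter]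
      refine sum_congr rfl fun e _ => ?_
      by_cases a : C.Live π S e <;> by_cases b : C.head e = v <;> simp [we, a, b]
    rw [h6, ← e3 x h, mulVec_mulVec, nonsing_inv_mul _ d1.isUnit, one_mulVec]
  have s1 : ∀ w u, Tl w u ≠ 0 → C.tail w = u := fun w u h => by_contra fun h' => h (if_neg h')
  have s2 : ∀ i u, O i u ≠ 0 → C.output (r i) = u := fun w u h => by_contra fun h' => h (if_neg h')
  have s3 : ∀ v w, Hd v w ≠ 0 → C.head w = v := fun v w h => by_contra fun h' => h (if_neg h')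
  have s4 : ∀ v j, B v j ≠ 0 → π v = s j := fun v j h =>
    have h6 : (∀ e, C.head e ≠ v) ∧ C.label v = c j := by_contra fun h' => h (if_neg h')
    h1 j v h6.1 h6.2
  obtain ⟨P, en, dt, p1, p2, p3, p4⟩ := exists_darts (G := C.partGraph π S)
    (tl := fun w : E => π (C.tail w)) (hd := fun w => π (C.head w))
    fun w => (SimpleGraph.fromRel_adj _ _ _).2 ⟨w.2.2.2, .inl ⟨w, w.2, rfl, rfl⟩⟩
  have h := net (G := C.partGraph π S) (T := Tl * R * Hd) (B := Tl * R * B) (C := O * R * Hd)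
    (D := O * R * B) (ρ := fun w => ρ (C.tail w)) (li := s) (lo := t) (dt := dt) p1 p2
    (fun w w' h => by
      obtain ⟨u, v, a, b, d⟩ := mul3_ne h
      obtain rfl := s1 _ _ a
      obtain rfl := s3 _ _ d
      exact ⟨by rw [p3, p4]; exact (d3 _ _ b).1, (hρ _).trans_le (d3 _ _ b).2⟩)
    (fun w j h => by
      obtain ⟨u, v, a, b, d⟩ := mul3_ne h
      obtain rfl := s1 _ _ a
      exact (p3 w).trans ((d3 _ _ b).1.trans (s4 _ _ d)))
    (fun i w h => by
      obtain ⟨u, v, a, b, d⟩ := mul3_ne h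
      obtain rfl := s2 _ _ a
      obtain rfl := s3 _ _ d
      rw [p4, ← h2]
      exact (d3 _ _ b).1)
    (fun i j h => by
      obtain ⟨u, v, a, b, d⟩ := mul3_ne h
      obtain rfl := s2 _ _ a
      exact (h2 i).symm.trans ((d3 _ _ b).1.trans (s4 _ _ d)))
    h3 hγ hU (by rw [Fintype.card_fin]; exact h4) (Z := Tl * Z) (A := A0)
    ((mul_le_mul_of_nonneg_left (Nat.cast_le.2 (rank_le_card_height _)) (by norm_num)).trans
      (by simpa using hS))
    fun x hx => by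
      have := e4 x hx
      rw [← e2]
      simp only [← mulVec_mulVec, ← mulVec_add, ← this, and_self]
  rw [Fintype.card_fin] at h
  refine h.trans (mul_le_mul_of_nonneg_left (Nat.cast_le.2 ?_) (by norm_num))
  exact card_le_ncard (s := univ) Subtype.val_injective fun w _ => w.2

end Pool.Agent.MP_5daf37_lc.QT
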