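import Pool.Agent.MP_5daf37_lc.QT.Fix

/-!
The fixed point of the messages in an acyclic network: true values have finite energy, and the
energy is definite.
-/

open Matrix Finset

namespace Pool.Agent.MP_5daf37_lc.QT

open BN TL

variable {𝕜 : Type} [RCLike 𝕜] {H E ι o : Type} [Fintype H] [Fintype E] [Fintype ι]
  [Fintype o] [DecidableEq H] [DecidableEq E] [DecidableEq ι]

/-- The values on the bundle of the half `h`: `p` on leaving wires, `q` on entering wires. -/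
def br (σ : H → H) (dt : E → H) (h : H) (p q : E → 𝕜) : E → 𝕜 :=
  fun e => if dt e = h then p e else if σ (dt e) = h then q e else 0

/-- The values on the bundle of `h` in terms of the entering wires and the inputs. -/
def Nm (σ : H → H) (dt : E → H) (T : Matrix E E 𝕜) (B : Matrix E ι 𝕜) (h : H) :
    Matrix E (E ⊕ ι) 𝕜 :=
  of fun e c => br σ dt h (fun e => fromCols T B e c) (fun e => fromCols 1 0 e c) e

/-- The values of the inputs and outputs. -/
def Lm (C : Matrix o E 𝕜) (D : Matrix o ι 𝕜) : Matrix (ι ⊕ o) (E ⊕ ι) 𝕜 :=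
  fromRows (fromCols 0 1) (fromCols C D)

variable {σ : H → H} {dt : E → H} {T : Matrix E E 𝕜} {B : Matrix E ι 𝕜} {C : Matrix o E 𝕜}
  {D : Matrix o ι 𝕜}

omit [Fintype H] [DecidableEq ι] in
theorem Nm_mulVec (h : H) (y : E → 𝕜) (x : ι → 𝕜) :
    Nm σ dt T B h *ᵥ Sum.elim y x = br σ dt h (T *ᵥ y + B *ᵥ x) y := by
  funext e
  have h1 := congrFun (fromCols_mulVec_sumElim T B y x) e
  have h2 := congrFun (fromCols_mulVec_sumElim (1 : Matrix E E 𝕜) (0 : Matrix E ι 𝕜) y x) e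
  rw [one_mulVec, zero_mulVec, add_zero] at h2
  simp only [Nm, br, mulVec, dotProduct, of_apply] at h1 h2 ⊢
  split_ifs
  exacts [h1, h2, by simp]

omit [DecidableEq E] [Fintype o] in
theorem Lm_mulVec (y : E → 𝕜) (x : ι → 𝕜) :
    Lm C D *ᵥ Sum.elim y x = Sum.elim x (C *ᵥ y + D *ᵥ x) := by
  simp only [Lm, fromRows_mulVec, fromCols_mulVec_sumElim, one_mulVec, zero_mulVec, zero_add]

omit [Fintype H] [Fintype E] [DecidableEq E] in
theorem br_add (h : H) (p q p' q' : E → 𝕜) :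
    br σ dt h (p + p') (q + q') = br σ dt h p q + br σ dt h p' q' := by
  funext e
  simp only [br, Pi.add_apply]
  split_ifs <;> simp

omit [Fintype H] [Fintype E] [DecidableEq E] in
theorem br_congr {h : H} {p q p' q' : E → 𝕜} (h1 : ∀ e, dt e = h → p e = p' e)
    (h2 : ∀ e, σ (dt e) = h → q e = q' e) : br σ dt h p q = br σ dt h p' q' := by
  funext e
  simp only [br]
  split_ifs with a b
  exacts [h1 e a, h2 e b, rfl]

omit [Fintype H] [Fintype E] [DecidableEq E] in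
theorem br_swap (hσ : ∀ h, σ (σ h) = h) (hn : ∀ h, σ h ≠ h) (h : H) (p q : E → 𝕜) :
    br σ dt (σ h) p q = br σ dt h q p := by
  funext e
  have a : dt e = σ h ↔ σ (dt e) = h := ⟨fun e => by rw [e, hσ], fun e => by rw [← e, hσ]⟩
  simp only [br, a, (Function.Involutive.injective hσ).eq_iff]
  by_cases b : dt e = h
  · simp [b, hn]
  · simp [b]

/-- The vector vanishes below the rank `r`. -/
def Sp (ρ : E → ℕ) (r : ℕ) (u : E → 𝕜) : Prop := ∀ e, ρ e < r → u e = 0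

variable {ρ : E → ℕ}

omit [DecidableEq E] in
theorem Sp.mulVec (sT : ∀ e e', T e e' ≠ 0 → ρ e' < ρ e) {r : ℕ} {u : E → 𝕜} (h : Sp ρ r u) :
    Sp ρ (r + 1) (T *ᵥ u) := fun e he => sum_eq_zero fun c _ => by
  by_cases a : T e c = 0
  · exact mul_eq_zero_of_left a _
  · exact mul_eq_zero_of_right _ (h c (by have := sT e c a; omega))

omit [Fintype E] [DecidableEq E] in
theorem Sp.zero {u : E → 𝕜} (h : ∀ r, Sp ρ r u) : u = 0 := funext fun e => h _ e (lt_add_one _)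

section

variable (hσ : ∀ h, σ (σ h) = h) (hn : ∀ h, σ h ≠ h) (sT : ∀ e e', T e e' ≠ 0 → ρ e' < ρ e)
  {s : St 𝕜 H E} (hs : Step (Nm σ dt T B) (Lm C D) σ s s)
include hσ hn sT hs

theorem reply {r : ℕ} (ih : ∀ h u, Sp ρ r u → ∃ y, Sp ρ r y ∧ (∀ e, σ (dt e) = h → y e = u e) ∧
      ∀ g, g ≠ h → br σ dt g (T *ᵥ y) (y - u) ∈ s.1 g) (g : H) {p : E → 𝕜} (hp : Sp ρ r p) :
    ∃ q, Sp ρ r q ∧ br σ dt g p q ∈ s.1 g := by
  obtain ⟨y, y1, y2, y3⟩ := ih (σ g) (fun e => if dt e = g then p e else 0) fun e he => by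
    simp [hp e he]
  have := hs.dom (σ g) (Sum.elim y 0) fun g' hg => by
    rw [Nm_mulVec, mulVec_zero, add_zero]
    convert y3 g' hg using 1
    refine br_congr (fun _ _ => rfl) fun e he => ?_
    rw [Pi.sub_apply, if_neg fun a => hg (by rw [← he, a]), sub_zero]
  rw [Nm_mulVec, mulVec_zero, add_zero, br_swap hσ hn, hσ] at this
  refine ⟨T *ᵥ y, fun e he => y1.mulVec sT e (by omega), ?_⟩
  convert this using 1
  exact br_congr (fun e he => ((y2 e (by rw [he])).trans (if_pos he)).symm) fun _ _ => rfl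

theorem forward (r : ℕ) (h : H) (u : E → 𝕜) (hu : Sp ρ r u) : ∃ y, Sp ρ r y ∧
    (∀ e, σ (dt e) = h → y e = u e) ∧ ∀ g, g ≠ h → br σ dt g (T *ᵥ y) (y - u) ∈ s.1 g := by
  obtain ⟨n, hr⟩ : ∃ n, univ.sup ρ < r + n := ⟨univ.sup ρ + 1, by omega⟩
  induction n generalizing r h u with
  | zero =>
    obtain rfl : u = 0 := funext fun e => hu e ((le_sup (mem_univ e)).trans_lt hr)
    refine ⟨0, hu, fun _ _ => rfl, fun g _ => ?_⟩
    convert (s.1 g).zero_mem
    funext e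
    simp [br]
  | succ n ih =>
    have ih' := fun h u hu => ih (r + 1) h u hu (by omega)
    choose q q1 q2 using fun g => reply hσ hn sT hs ih' g (hu.mulVec sT)
    obtain ⟨y, y1, y2, y3⟩ := ih' h (fun e => if σ (dt e) = h then 0 else q (σ (dt e)) e)
      fun e he => by simp [q1 _ e he]
    refine ⟨u + y, fun e he => by simp [hu e he, y1 e (by omega)], fun e he => by
      simp [y2 e he, he], fun g hg => ?_⟩
    convert (s.1 g).add_mem (q2 g) (y3 g hg) using 1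
    rw [← br_add, mulVec_add]
    refine br_congr (fun _ _ => rfl) fun e he => ?_
    simp [he, hg]

theorem true_mem {z : E → 𝕜} {x : ι → 𝕜} (hz : z = T *ᵥ z + B *ᵥ x) (h : H) :
    br σ dt h z z ∈ s.1 h := by
  have key : ∀ r h, ∃ p, Sp ρ r (p - z) ∧ br σ dt h z p ∈ s.1 h := fun r => by
    induction r with
    | zero => exact fun h =>
        let ⟨q, _, a⟩ := reply hσ hn sT hs (forward hσ hn sT hs 0) h (p := z) fun _ h => nomatch h
        ⟨q, fun _ h => (nomatch h), a⟩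
    | succ r ih =>
      intro h
      choose p p1 p2 using ih
      obtain ⟨y, y1, y2, y3⟩ := forward hσ hn sT hs r (σ h)
        (fun e => if σ (dt e) = σ h then 0 else (p (σ (dt e)) - z) e) fun e he => by
          simp only [p1 _ e he, ite_self]
      have e1 : T *ᵥ (z + y) + B *ᵥ x = z + T *ᵥ y := by
        rw [mulVec_add, add_right_comm, ← hz]
      have := hs.dom (σ h) (Sum.elim (z + y) x) fun g hg => by
        rw [Nm_mulVec, e1]
        convert (s.1 g).add_mem (p2 g) (y3 g hg) using 1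
        rw [← br_add]
        refine br_congr (fun _ _ => rfl) fun e he => ?_
        simp [he, hg]
        ring
      rw [Nm_mulVec, e1, br_swap hσ hn, hσ] at this
      refine ⟨z + T *ᵥ y, by simpa using y1.mulVec sT, ?_⟩
      convert this using 1
      exact br_congr (fun e he => by simp [y2 e (by rw [he]), he]) fun _ _ => rfl
  obtain ⟨p, p1, p2⟩ := key (univ.sup ρ + 1) h
  have : p = z := sub_eq_zero.1 (funext fun e => p1 e (Nat.lt_succ_of_le (le_sup (mem_univ e))))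
  exact this ▸ p2

theorem definite {ξ : E ⊕ ι → 𝕜} (h1 : ∀ h, Nm σ dt T B h *ᵥ ξ ∈ s.1 h)
    (h2 : ∑ h, nsq (s.2 h *ᵥ Nm σ dt T B h *ᵥ ξ) + nsq (Lm C D *ᵥ ξ) ≤ 0) : ξ = 0 := by
  have k0 : ∀ h ξ, nsq (s.2 h *ᵥ Nm σ dt T B h *ᵥ ξ) + En (Nm σ dt T B) (Lm C D) s h ξ =
      ∑ h, nsq (s.2 h *ᵥ Nm σ dt T B h *ᵥ ξ) + nsq (Lm C D *ᵥ ξ) := fun h ξ => by
    rw [En, ← add_assoc, add_sum_erase _ (fun h => nsq (s.2 h *ᵥ Nm σ dt T B h *ᵥ ξ)) (mem_univ h)]
  have k1 : ∀ y x, ∑ h, nsq (s.2 h *ᵥ Nm σ dt T B h *ᵥ Sum.elim y x) +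
      nsq (Lm C D *ᵥ Sum.elim y x) ≤ 0 → x = 0 := fun y x h => by_contra fun e => by
    rw [Lm_mulVec, nsq_elim] at h
    linarith [nsq_pos e, nsq_nonneg (C *ᵥ y + D *ᵥ x), sum_nonneg fun h (_ : h ∈ univ) =>
      nsq_nonneg (s.2 h *ᵥ Nm σ dt T B h *ᵥ Sum.elim y x)]
  have key : ∀ r y x, (∀ h, Nm σ dt T B h *ᵥ Sum.elim y x ∈ s.1 h) →
      ∑ h, nsq (s.2 h *ᵥ Nm σ dt T B h *ᵥ Sum.elim y x) + nsq (Lm C D *ᵥ Sum.elim y x) ≤ 0 →
      Sp ρ r y := fun r => by
    induction r with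
    | zero => exact fun _ _ _ _ _ h => nomatch h
    | succ r ih =>
      intro y x a1 a2 e he
      obtain ⟨ξ, b1, b2, b3⟩ := hs.att (dt e) _ (a1 (σ (dt e)))
      obtain ⟨y', x', rfl⟩ : ∃ y v, ξ = Sum.elim y v := ⟨_, _, (Sum.elim_comp_inl_inr ξ).symm⟩
      have c1 : Adm (Nm σ dt T B) s (σ (dt e)) (Sum.elim y x) := fun g _ => a1 g
      have c2 := hs.low _ _ c1
      have c3 := hs.dom _ _ c1
      rw [hσ, ← b2] at c2 c3
      have c4 := k0 (σ (dt e)) (Sum.elim y x)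
      have c5 := (k0 (dt e) (Sum.elim y' x')).symm.le.trans (by linarith : _ ≤ (0 : ℝ))
      have c6 := (ih y' x' (fun g => if h : g = dt e then h ▸ c3 else b1 g h) c5).mulVec sT e he
      have c7 := congrFun b2 e
      rw [Nm_mulVec, Nm_mulVec, br_swap hσ hn, k1 _ _ c5] at c7
      simpa [br, c6] using c7.symm
  obtain ⟨y, x, rfl⟩ : ∃ y v, ξ = Sum.elim y v := ⟨_, _, (Sum.elim_comp_inl_inr ξ).symm⟩
  rw [Sp.zero fun r => key r y x h1 h2, k1 y x h2, Sum.elim_zero_zero]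

end

end Pool.Agent.MP_5daf37_lc.QT
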