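import Pool.Agent.MP_5daf37_lc.TL.Mass

/-!
A fixed point of the energy messages with matrix weights.
-/

open Matrix Finset Filter Topology

namespace Pool.Agent.MP_5daf37_lc.QT

open BN TL

variable {𝕜 : Type} [RCLike 𝕜] {H E P L Q : Type} [Fintype H] [Fintype E] [Fintype P] [Fintype L]
  [Fintype Q] [DecidableEq H] [DecidableEq E]

theorem compress (G : Matrix Q E 𝕜) : ∃ M : Matrix E E 𝕜, ∀ y, nsq (M *ᵥ y) = nsq (G *ᵥ y) := by
  obtain ⟨V, d, hd⟩ := exists_dg Gᴴ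
  refine ⟨diagonal (fun i => ((√(d i) : ℝ) : 𝕜)) * Vᴴ, fun y => ?_⟩
  rw [hd.nsq_mulVec_eq, ← mulVec_mulVec, nsq]
  refine sum_congr rfl fun i _ => ?_
  rw [mulVec_diagonal, norm_mul, mul_pow, RCLike.norm_ofReal, sq_abs, Real.sq_sqrt (hd.h3 i)]

theorem short (S : Submodule 𝕜 (P → 𝕜)) (N : Matrix E P 𝕜) (Φ : Matrix Q P 𝕜) :
    ∃ M : Matrix E E 𝕜, ∀ ξ ∈ S, nsq (M *ᵥ N *ᵥ ξ) ≤ nsq (Φ *ᵥ ξ) ∧
      ∃ ξ' ∈ S, N *ᵥ ξ' = N *ᵥ ξ ∧ nsq (Φ *ᵥ ξ') ≤ nsq (M *ᵥ N *ᵥ ξ) := by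
  let e := (WithLp.linearEquiv 2 𝕜 (Q → 𝕜)).symm
  have he : ∀ v, ‖e v‖ ^ 2 = nsq v := fun v => by
    rw [EuclideanSpace.norm_sq_eq]; rfl
  let f : S →ₗ[𝕜] (E → 𝕜) := N.mulVecLin ∘ₗ S.subtype
  let φ : S →ₗ[𝕜] EuclideanSpace 𝕜 Q := e.toLinearMap ∘ₗ Φ.mulVecLin ∘ₗ S.subtype
  let K := f.ker.map φ
  let ψ : S →ₗ[𝕜] EuclideanSpace 𝕜 Q := Kᗮ.starProjection.toLinearMap ∘ₗ φ
  have h1 : f.ker ≤ ψ.ker := fun ξ h =>
    K.starProjection_orthogonal_apply_eq_zero (Submodule.mem_map_of_mem h)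
  obtain ⟨g, hg⟩ := LinearMap.exists_extend
    ((f.ker.liftQ ψ h1) ∘ₗ f.quotKerEquivRange.symm.toLinearMap)
  have h2 : ∀ ξ, g (f ξ) = ψ ξ := fun ξ => by
    have := LinearMap.congr_fun hg ⟨f ξ, ξ, rfl⟩
    simpa [LinearMap.quotKerEquivRange_symm_apply_image] using this
  obtain ⟨M, hM⟩ := compress (LinearMap.toMatrix' (e.symm.toLinearMap ∘ₗ g))
  have h3 : ∀ ξ : S, nsq (M *ᵥ N *ᵥ ξ) = ‖ψ ξ‖ ^ 2 := fun ξ => by
    rw [hM, LinearMap.toMatrix'_mulVec, ← he, ← h2]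
    simp [f]
  refine ⟨M, fun ξ hξ => ⟨?_, ?_⟩⟩
  · rw [h3 ⟨ξ, hξ⟩, ← he]
    exact pow_le_pow_left₀ (norm_nonneg _) (Kᗮ.norm_starProjection_apply_le _) 2
  · obtain ⟨η, h4, h5⟩ := K.starProjection_apply_mem (φ ⟨ξ, hξ⟩)
    refine ⟨ξ - η, S.sub_mem hξ η.2, ?_, ?_⟩
    · rw [mulVec_sub, show N *ᵥ η = 0 from h4, sub_zero]
    · rw [h3 ⟨ξ, hξ⟩, ← he, mulVec_sub, map_sub]
      refine le_of_eq (congrArg (‖·‖ ^ 2) ?_)
      show φ ⟨ξ, hξ⟩ - φ η = Kᗮ.starProjection (φ ⟨ξ, hξ⟩)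
      rw [h5, Submodule.starProjection_orthogonal_val]

/-- A state of the messages: a domain and a weight for each half. -/
abbrev St (𝕜 H E : Type) [RCLike 𝕜] := (H → Submodule 𝕜 (E → 𝕜)) × (H → Matrix E E 𝕜)

/-- The values at the halves other than `h` lie in the domains. -/
def Adm (N : H → Matrix E P 𝕜) (s : St 𝕜 H E) (h : H) (ξ : P → 𝕜) : Prop :=
  ∀ g, g ≠ h → N g *ᵥ ξ ∈ s.1 g

/-- The energy of the ports other than `h`. -/
noncomputable def En (N : H → Matrix E P 𝕜) (Lg : Matrix L P 𝕜) (s : St 𝕜 H E) (h : H)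
    (ξ : P → 𝕜) : ℝ :=
  ∑ g ∈ univ.erase h, nsq (s.2 g *ᵥ N g *ᵥ ξ) + nsq (Lg *ᵥ ξ)

/-- One round of messages. -/
structure Step (N : H → Matrix E P 𝕜) (Lg : Matrix L P 𝕜) (σ : H → H) (s s' : St 𝕜 H E) :
    Prop where
  dom : ∀ h ξ, Adm N s h ξ → N h *ᵥ ξ ∈ s'.1 (σ h)
  low : ∀ h ξ, Adm N s h ξ → nsq (s'.2 (σ h) *ᵥ N h *ᵥ ξ) ≤ En N Lg s h ξ
  att : ∀ h, ∀ y ∈ s'.1 (σ h), ∃ ξ, Adm N s h ξ ∧ N h *ᵥ ξ = y ∧
    En N Lg s h ξ ≤ nsq (s'.2 (σ h) *ᵥ y)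

/-- Larger domains and smaller weights. -/
def Below (s' s : St 𝕜 H E) : Prop :=
  ∀ h, ∀ y ∈ s.1 h, y ∈ s'.1 h ∧ nsq (s'.2 h *ᵥ y) ≤ nsq (s.2 h *ᵥ y)

variable {N : H → Matrix E P 𝕜} {Lg : Matrix L P 𝕜} {σ : H → H}

theorem exists_step (hσ : ∀ h, σ (σ h) = h) (s : St 𝕜 H E) : ∃ s', Step N Lg σ s s' := by
  let S : H → Submodule 𝕜 (P → 𝕜) := fun h => ⨅ g, ⨅ _ : g ≠ h, (s.1 g).comap (N g).mulVecLin
  have hS : ∀ h ξ, ξ ∈ S h ↔ Adm N s h ξ := fun h ξ => by simp [S, Adm]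
  let Φ : H → Matrix ((H × E) ⊕ L) P 𝕜 := fun h =>
    fromRows (of fun a p => if a.1 = h then 0 else (s.2 a.1 * N a.1) a.2 p) Lg
  have hΦ : ∀ h ξ, nsq (Φ h *ᵥ ξ) = En N Lg s h ξ := fun h ξ => by
    rw [fromRows_mulVec, nsq_elim, En, nsq, Fintype.sum_prod_type,
      ← add_sum_erase _ _ (mem_univ h), sum_eq_zero fun e _ => by simp [mulVec, dotProduct],
      zero_add]
    congr 1
    refine sum_congr rfl fun g hg => sum_congr rfl fun e _ => ?_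
    rw [mulVec_mulVec]
    simp [mulVec, dotProduct, ne_of_mem_erase hg]
  choose M hM using fun h => short (S h) (N h) (Φ h)
  refine ⟨(fun h => (S (σ h)).map (N (σ h)).mulVecLin, fun h => M (σ h)), fun h ξ a => ?_,
    fun h ξ a => ?_, fun h y a => ?_⟩ <;> simp only [hσ] at *
  · exact ⟨ξ, (hS h ξ).2 a, rfl⟩
  · exact hΦ h ξ ▸ (hM h ξ ((hS h ξ).2 a)).1
  · obtain ⟨ξ, a, rfl⟩ := a
    obtain ⟨ξ', b, c, d⟩ := (hM h ξ a).2
    exact ⟨ξ', (hS h ξ').1 b, c, hΦ h ξ' ▸ d⟩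

omit [DecidableEq E] in
theorem Below.en {s s' : St 𝕜 H E} (h : Below s' s) {g : H} {ξ : P → 𝕜} (a : Adm N s g ξ) :
    Adm N s' g ξ ∧ En N Lg s' g ξ ≤ En N Lg s g ξ :=
  ⟨fun b hb => (h b _ (a b hb)).1, add_le_add_left
    (sum_le_sum fun b hb => (h b _ (a b (ne_of_mem_erase hb))).2) _⟩

omit [DecidableEq E] in
theorem Step.mono (hσ : ∀ h, σ (σ h) = h) {s s' t t' : St 𝕜 H E} (h1 : Step N Lg σ s t)
    (h2 : Step N Lg σ s' t') (h : Below s' s) : Below t' t := fun g y hy => by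
  rw [← hσ g] at hy ⊢
  obtain ⟨ξ, a, rfl, b⟩ := h1.att _ y hy
  obtain ⟨c, d⟩ := h.en (Lg := Lg) a
  exact ⟨h2.dom _ ξ c, (h2.low _ ξ c).trans (d.trans b)⟩

theorem exists_fix (hσ : ∀ h, σ (σ h) = h) : ∃ s : St 𝕜 H E, Step N Lg σ s s := by
  choose F hF using exists_step (N := N) (Lg := Lg) hσ
  let s : ℕ → St 𝕜 H E := fun n => F^[n] (⊥, 0)
  have s1 : ∀ n, Step N Lg σ (s n) (s (n + 1)) := fun n => by
    rw [show s (n + 1) = F (s n) from Function.iterate_succ_apply' _ _ _]; exact hF _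
  have s2 : ∀ n, Below (s (n + 1)) (s n) := fun n => by
    induction n with
    | zero =>
      intro h y hy
      obtain rfl : y = 0 := hy
      exact ⟨zero_mem _, by simp⟩
    | succ n ih => exact (s1 n).mono hσ (s1 (n + 1)) ih
  have s3 : ∀ n m, n ≤ m → Below (s m) (s n) := fun n m h => by
    induction h with
    | refl => exact fun g y hy => ⟨hy, le_rfl⟩
    | step _ ih => exact fun g y hy =>
      ⟨(s2 _ g y (ih g y hy).1).1, (s2 _ g y (ih g y hy).1).2.trans (ih g y hy).2⟩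
  choose T0 hT using fun h => monotone_stabilizes_iff_noetherian.2
    (inferInstance : IsNoetherian 𝕜 (E → 𝕜))
    ⟨fun n => (s n).1 h, fun n m e y hy => (s3 n m e h y hy).1⟩
  let T := univ.sup T0
  have s4 : ∀ n h, (s (T + n)).1 h = (s T).1 h := fun n h =>
    have : T0 h ≤ T := le_sup (mem_univ h)
    (hT h (T + n) (by omega)).symm.trans (hT h T this)
  choose p hp using fun h => LinearMap.exists_leftInverse_of_injective ((s T).1 h).subtype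
    (Submodule.ker_subtype _)
  have p1 : ∀ h, ∀ y ∈ (s T).1 h, (p h y : E → 𝕜) = y := fun h y hy =>
    congrArg Subtype.val (LinearMap.congr_fun (hp h) ⟨y, hy⟩)
  let u : ℕ → H → E → E → 𝕜 := fun n h j => (s (T + n)).2 h *ᵥ p h (Pi.single j 1)
  let c : ℝ := √(∑ h, ∑ j, nsq (u 0 h j))
  obtain ⟨v, -, φ, φ1, φ2⟩ := tendsto_subseq_of_bounded (x := u)
    (Metric.isBounded_closedBall (x := 0) (r := c)) fun n => by
      have c0 : 0 ≤ c := Real.sqrt_nonneg _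
      rw [mem_closedBall_zero_iff]
      refine (pi_norm_le_iff_of_nonneg c0).2 fun h => (pi_norm_le_iff_of_nonneg c0).2 fun j =>
        (pi_norm_le_iff_of_nonneg c0).2 fun i => Real.le_sqrt_of_sq_le ?_
      refine (single_le_sum (f := fun i => ‖u n h j i‖ ^ 2) (fun _ _ => sq_nonneg _)
        (mem_univ i)).trans ((s3 T (T + n) (by omega) h _ (p h _).2).2.trans ?_)
      exact (single_le_sum (f := fun j => nsq (u 0 h j)) (fun _ _ => nsq_nonneg _)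
        (mem_univ j)).trans (single_le_sum (f := fun h => ∑ j, nsq (u 0 h j))
          (fun _ _ => sum_nonneg fun _ _ => nsq_nonneg _) (mem_univ h))
  let t : St 𝕜 H E := ((s T).1, fun h => of fun i j => v h j i)
  have t1 : ∀ h, ∀ y ∈ t.1 h, Tendsto (fun n => nsq ((s (T + φ n)).2 h *ᵥ y)) atTop
      (𝓝 (nsq (t.2 h *ᵥ y))) := fun h y hy => by
    have e : ∀ n i, ((s (T + n)).2 h *ᵥ y) i = ∑ j, u n h j i * y j := fun n i => by
      conv_lhs => rw [← p1 h y hy, pi_eq_sum_univ' y, map_sum]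
      simp [u, mulVec_sum, mulVec_smul, mul_comm]
    simp only [nsq, e]
    refine tendsto_finsetSum _ fun i _ => (Tendsto.norm ?_).pow 2
    exact tendsto_finsetSum _ fun j _ => (tendsto_pi_nhds.1 (tendsto_pi_nhds.1
      (tendsto_pi_nhds.1 φ2 h) j) i).mul_const _
  have t2 : ∀ n, Below t (s n) := fun n h y hy => by
    have a : y ∈ t.1 h := s4 n h ▸ (s3 n (T + n) (by omega) h y hy).1
    refine ⟨a, le_of_tendsto (t1 h y a) ((eventually_ge_atTop n).mono fun m hm => ?_)⟩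
    exact (s3 n _ (by have := φ1.id_le m; simp at this; omega) h y hy).2
  have t3 : ∀ n h ξ, Adm N t h ξ → Adm N (s (T + n)) h ξ := fun n h ξ a g hg =>
    (s4 n g).symm ▸ a g hg
  have t4 : ∀ h ξ, Adm N t h ξ → N h *ᵥ ξ ∈ t.1 (σ h) := fun h ξ a =>
    s4 1 (σ h) ▸ (s1 T).dom h ξ a
  refine ⟨t, t4, fun h ξ a => ?_, fun h y hy => ?_⟩
  · refine ge_of_tendsto' (f := fun n => En N Lg (s (T + φ n)) h ξ) (x := atTop)
      ((tendsto_finsetSum _ fun g hg => t1 g _ (a g (ne_of_mem_erase hg))).add_const _) fun n => ?_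
    have b := t3 (φ n) h ξ a
    exact (t2 _ _ _ ((s1 _).dom h ξ b)).2.trans ((s1 _).low h ξ b)
  · have b : ∀ n, Below (F t) (s (n + 1)) := fun n => (s1 n).mono hσ (hF t) (t2 n)
    obtain ⟨ξ, c, d, e⟩ := (hF t).att h y (b T _ y ((s4 1 _).symm ▸ hy)).1
    refine ⟨ξ, c, d, e.trans (ge_of_tendsto (t1 _ y hy)
      ((eventually_ge_atTop 1).mono fun n hn => ?_))⟩
    obtain ⟨m, hm⟩ : ∃ m, φ n = m + 1 :=
      ⟨φ n - 1, by have := φ1.id_le n; simp at this; omega⟩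
    rw [hm]
    exact (b (T + m) _ y ((s4 (m + 1) _).symm ▸ hy)).2

end Pool.Agent.MP_5daf37_lc.QT
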