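import Pool.Agent.MP_5daf37_lc.QT.Ports

/-!
The reproducing kernel of a subspace, and simultaneous diagonalization of two forms.
-/

open Matrix Finset Module

namespace Pool.Agent.MP_5daf37_lc.QT

open BN TL

variable {𝕜 : Type} [RCLike 𝕜] {H : Type} [Fintype H] [DecidableEq H]

theorem exists_basis (S : Submodule 𝕜 (H → 𝕜)) :
    ∃ (J : Matrix H (Fin (finrank 𝕜 S)) 𝕜) (J' : Matrix (Fin (finrank 𝕜 S)) H 𝕜),
      (∀ ξ, J *ᵥ ξ ∈ S) ∧ (∀ v ∈ S, J *ᵥ J' *ᵥ v = v) ∧ ∀ ξ, J' *ᵥ J *ᵥ ξ = ξ := by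
  let e := (finBasis 𝕜 S).equivFun
  obtain ⟨g, hg⟩ := LinearMap.exists_extend (p := S) e.toLinearMap
  have h : ∀ v : S, g v = e v := fun v => LinearMap.congr_fun hg v
  refine ⟨LinearMap.toMatrix' (S.subtype ∘ₗ e.symm.toLinearMap), LinearMap.toMatrix' g,
    fun ξ => ?_, fun v hv => ?_, fun ξ => ?_⟩ <;> simp only [LinearMap.toMatrix'_mulVec]
  · exact (e.symm ξ).2
  · rw [h ⟨v, hv⟩]
    exact congrArg Subtype.val (e.symm_apply_apply _)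
  · exact (h _).trans (e.apply_symm_apply _)

theorem exists_kernel (S : Submodule 𝕜 (H → 𝕜)) {ω : H → ℝ} (h0 : ∀ t, 0 ≤ ω t)
    (hS : ∀ v ∈ S, ∑ t, ω t * ‖v t‖ ^ 2 ≤ 0 → v = 0) {loc : H → ℕ}
    (hl : ∀ a, ∀ v ∈ S, part loc v a ∈ S) :
    ∃ K : Matrix H H 𝕜, Kᴴ = K ∧ K * diagonal (fun t => (ω t : 𝕜)) * K = K ∧
      (∀ v ∈ S, v = K *ᵥ diagonal (fun t => (ω t : 𝕜)) *ᵥ v) ∧
      ∑ s, ω s * RCLike.re (K s s) = finrank 𝕜 S ∧ (∀ s t, K s t ≠ 0 → loc s = loc t) ∧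
      ∀ (b : Finset H) (t : H), t ∈ b → (∀ v ∈ S, ∑ s ∈ b, ‖v s‖ ^ 2 ≤ ∑ s, ω s * ‖v s‖ ^ 2) →
        (∃ v ∈ S, v t = 1 ∧ ∑ s, ω s * ‖v s‖ ^ 2 ≤ 1) →
        ∀ s ∈ b, K s t = if s = t then 1 else 0 := by
  obtain ⟨J, J', j1, j2, j3⟩ := exists_basis S
  set Ω : Matrix H H 𝕜 := diagonal fun t => (ω t : 𝕜) with hΩ
  set M := Jᴴ * Ω * J with hM
  have m0 : M.det ≠ 0 := fun e => by
    obtain ⟨ξ, x0, x1⟩ := exists_mulVec_eq_zero_iff.2 e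
    have h1 : ((∑ t, ω t * ‖(J *ᵥ ξ) t‖ ^ 2 : ℝ) : 𝕜) = star ξ ⬝ᵥ M *ᵥ ξ := by
      rw [hM, Matrix.mul_assoc, ← mulVec_mulVec, dotProduct_mulVec, ← star_mulVec, ← mulVec_mulVec]
      push_cast
      refine sum_congr rfl fun t _ => ?_
      rw [hΩ, mulVec_diagonal, mul_left_comm, Pi.star_apply, RCLike.star_def, RCLike.conj_mul]
    rw [x1, dotProduct_zero, RCLike.ofReal_eq_zero] at h1
    exact x0 (by rw [← j3 ξ, hS _ (j1 ξ) h1.le, mulVec_zero])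
  have m1 : Mᴴ = M := by
    rw [hM, hΩ]
    simp [conjTranspose_mul, Matrix.mul_assoc, diagonal_conjTranspose, Pi.star_def]
  set K := J * M⁻¹ * Jᴴ with hK
  have k1 : Kᴴ = K := by
    rw [hK, conjTranspose_mul, conjTranspose_mul, conjTranspose_conjTranspose,
      conjTranspose_nonsing_inv, m1, Matrix.mul_assoc]
  have k2 : K * Ω * J = J := by
    rw [hK, Matrix.mul_assoc, Matrix.mul_assoc, Matrix.mul_assoc, ← Matrix.mul_assoc Jᴴ, ← hM,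
      nonsing_inv_mul _ m0.isUnit, Matrix.mul_one]
  have k3 : K * Ω * K = K := by
    conv_lhs => rw [hK, ← Matrix.mul_assoc, ← Matrix.mul_assoc, ← hK, k2]
  have k4 : ∀ s t, K t s = star (K s t) := fun s t => by rw [← conjTranspose_apply, k1]
  have k5 : ∀ v ∈ S, v = K *ᵥ Ω *ᵥ v := fun v hv => by
    rw [← j2 v hv, mulVec_mulVec _ Ω, mulVec_mulVec _ K, ← Matrix.mul_assoc, k2]
  have k6 : ∀ v ∈ S, ∀ t, v t = ∑ s, K t s * (ω s : 𝕜) * v s := fun v hv t =>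
    (congrFun (k5 v hv) t).trans (sum_congr rfl fun s _ => by
      rw [hΩ, mulVec_diagonal, mul_assoc])
  have k7 : ∀ t, (fun s => K s t) ∈ S := fun t => by
    have := j1 ((M⁻¹ * Jᴴ) *ᵥ Pi.single t 1)
    rwa [mulVec_mulVec, ← Matrix.mul_assoc, ← hK, mulVec_single_one] at this
  refine ⟨K, k1, k3, k5, ?_, fun s t e => by_contra fun e' => e ?_, fun b t ht h1 h2 s hs => ?_⟩
  · have : (Ω * K).trace = (finrank 𝕜 S : ℕ) := by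
      rw [hK, ← Matrix.mul_assoc, ← Matrix.mul_assoc, trace_mul_comm, ← Matrix.mul_assoc,
        ← Matrix.mul_assoc, ← hM, mul_nonsing_inv _ m0.isUnit, trace_one, Fintype.card_fin]
    have h1 := congrArg RCLike.re this
    rw [RCLike.natCast_re, trace, map_sum] at h1
    rw [← h1]
    exact sum_congr rfl fun s _ => by rw [diag_apply, hΩ, diagonal_mul, RCLike.re_ofReal_mul]
  · have h1 := hl (loc s) _ (k7 t)
    have h2 := k6 _ h1 t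
    have h3 : ((∑ u, ω u * ‖part loc (fun s => K s t) (loc s) u‖ ^ 2 : ℝ) : 𝕜) = 0 := by
      rw [part, if_neg (Ne.symm e')] at h2
      rw [h2]
      push_cast
      refine sum_congr rfl fun u _ => ?_
      by_cases h : loc u = loc s
      · rw [part, if_pos h, k4 u t, mul_right_comm, RCLike.star_def, RCLike.conj_mul, mul_comm]
      · simp [part, h]
    have := congrFun (hS _ h1 (RCLike.ofReal_eq_zero.1 h3).le) s
    rwa [part, if_pos rfl] at this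
  · obtain ⟨v, v1, v2, v3⟩ := h2
    set κ := ∑ s, ω s * ‖K s t‖ ^ 2 with hκ
    have c0 : 0 ≤ κ := sum_nonneg fun t _ => mul_nonneg (h0 t) (sq_nonneg _)
    have c1 : K t t = κ := by
      rw [k6 _ (k7 t) t, hκ]
      push_cast
      exact sum_congr rfl fun u _ => by
        rw [k4 u t, mul_right_comm, RCLike.star_def, RCLike.conj_mul, mul_comm]
    have c2 := wcs univ h0 (K t) v
    rw [← k6 v v1 t, v2, norm_one, one_pow] at c2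
    simp only [k4 _ t, norm_star] at c2
    have c3 := h1 _ (k7 t)
    rw [← add_sum_erase _ _ ht, c1, RCLike.norm_ofReal, sq_abs] at c3
    have c4 : 0 ≤ ∑ s ∈ b.erase t, ‖K s t‖ ^ 2 := sum_nonneg fun _ _ => sq_nonneg _
    have c5 : 1 ≤ κ := c2.trans (mul_le_of_le_one_right c0 v3)
    have c6 : κ = 1 := by nlinarith
    split_ifs with e
    · rw [e, c1, c6, RCLike.ofReal_one]
    · have := single_le_sum (f := fun s => ‖K s t‖ ^ 2) (fun _ _ => sq_nonneg _)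
        (mem_erase.2 ⟨e, hs⟩)
      exact norm_eq_zero.1 (pow_eq_zero_iff two_ne_zero |>.1 (le_antisymm (by nlinarith)
        (sq_nonneg _)))

theorem exists_diag (S : Submodule 𝕜 (H → 𝕜)) (M M' : Matrix H H 𝕜)
    (h : ∀ y ∈ S, nsq (M *ᵥ y) + nsq (M' *ᵥ y) ≤ 0 → y = 0) :
    ∃ (J : Matrix H (Fin (finrank 𝕜 S)) 𝕜) (c : Matrix (Fin (finrank 𝕜 S)) H 𝕜)
      (w : Fin (finrank 𝕜 S) → ℝ), (∀ ξ, J *ᵥ ξ ∈ S) ∧ (∀ v ∈ S, J *ᵥ c *ᵥ v = v) ∧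
      (∀ ξ, c *ᵥ J *ᵥ ξ = ξ) ∧ (∀ i, 0 ≤ w i ∧ w i ≤ 1) ∧ ∀ v ∈ S,
        nsq (M *ᵥ v) = ∑ i, w i * ‖(c *ᵥ v) i‖ ^ 2 ∧
        nsq (M' *ᵥ v) = ∑ i, (1 - w i) * ‖(c *ᵥ v) i‖ ^ 2 := by
  obtain ⟨J, J', j1, j2, j3⟩ := exists_basis S
  obtain ⟨V, d, hd⟩ := exists_dg (fromRows M M' * J)ᴴ
  have e1 : ∀ ξ, nsq (M *ᵥ J *ᵥ ξ) + nsq (M' *ᵥ J *ᵥ ξ) = ∑ i, d i * ‖(Vᴴ *ᵥ ξ) i‖ ^ 2 :=
    fun ξ => by rw [← hd.nsq_mulVec_eq, ← mulVec_mulVec, fromRows_mulVec, nsq_elim]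
  have e2 : ∀ ξ, Vᴴ *ᵥ V *ᵥ ξ = ξ := fun ξ => by rw [mulVec_mulVec, hd.h1, one_mulVec]
  have e3 : ∀ i, √(d i) ≠ 0 := fun i e => by
    have a := e1 (V *ᵥ Pi.single i 1)
    rw [e2] at a
    have b := h _ (j1 _) (a.trans (by
      simpa [Pi.single_apply, apply_ite norm] using (Real.sqrt_eq_zero (hd.h3 i)).1 e)).le
    have c := congrFun (e2 (Pi.single i 1)) i
    rw [← j3 (V *ᵥ _), b] at c
    simp at c
  let R := V * diagonal fun i => (((√(d i))⁻¹ : ℝ) : 𝕜)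
  let R' := diagonal (fun i => ((√(d i) : ℝ) : 𝕜)) * Vᴴ
  have r1 : R' * R = 1 := by
    rw [Matrix.mul_assoc, ← Matrix.mul_assoc Vᴴ, hd.h1, Matrix.one_mul, diagonal_mul_diagonal,
      ← diagonal_one]
    simp [e3]
  have r2 : ∀ ξ, nsq (M *ᵥ J *ᵥ R *ᵥ ξ) + nsq (M' *ᵥ J *ᵥ R *ᵥ ξ) = nsq ξ := fun ξ => by
    rw [e1, ← mulVec_mulVec, e2, nsq]
    refine sum_congr rfl fun i _ => ?_
    rw [mulVec_diagonal, norm_mul, mul_pow, RCLike.norm_ofReal, sq_abs, inv_pow, ← mul_assoc]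
    conv_lhs => enter [1, 1]; rw [← Real.sq_sqrt (hd.h3 i)]
    rw [mul_inv_cancel₀ (pow_ne_zero 2 (e3 i)), one_mul]
  obtain ⟨U, w, hw⟩ := exists_dg (M * J * R)ᴴ
  have u1 : ∀ ξ, Uᴴ *ᵥ U *ᵥ ξ = ξ := fun ξ => by rw [mulVec_mulVec, hw.h1, one_mulVec]
  have u2 : ∀ ξ, nsq (M *ᵥ J *ᵥ R *ᵥ U *ᵥ ξ) = ∑ i, w i * ‖ξ i‖ ^ 2 := fun ξ => by
    have := hw.nsq_mulVec_eq (U *ᵥ ξ)
    rwa [u1, ← mulVec_mulVec, ← mulVec_mulVec] at this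
  have u3 : ∀ ξ, nsq (M' *ᵥ J *ᵥ R *ᵥ U *ᵥ ξ) = ∑ i, (1 - w i) * ‖ξ i‖ ^ 2 := fun ξ => by
    have := r2 (U *ᵥ ξ)
    rw [u2, nsq_unitary hw.h1, nsq.eq_1 ξ] at this
    simp only [sub_mul, one_mul, sum_sub_distrib]
    linarith
  have u4 : ∀ v ∈ S, J *ᵥ R *ᵥ U *ᵥ Uᴴ *ᵥ R' *ᵥ J' *ᵥ v = v := fun v hv => by
    rw [mulVec_mulVec _ U, hw.h2, one_mulVec, mulVec_mulVec _ R, mul_eq_one_comm.1 r1, one_mulVec,
      j2 v hv]
  refine ⟨J * R * U, Uᴴ * R' * J', w, fun ξ => ?_, fun v hv => ?_, fun ξ => ?_,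
    fun i => ⟨hw.h3 i, ?_⟩, fun v hv => ?_⟩
  · simp only [← mulVec_mulVec, j1]
  · simp only [← mulVec_mulVec, u4 v hv]
  · simp only [← mulVec_mulVec, j3]
    rw [mulVec_mulVec _ R', r1, one_mulVec, u1]
  · have := nsq_nonneg (M' *ᵥ J *ᵥ R *ᵥ U *ᵥ Pi.single i 1)
    rw [u3] at this
    simpa [Pi.single_apply, apply_ite norm] using this
  · simp only [← mulVec_mulVec, ← u2, ← u3, u4 v hv, and_self]

end Pool.Agent.MP_5daf37_lc.QT
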