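import Pool.Agent.MP_5daf37_lc.QT.Ker
import Pool.Agent.MP_5daf37_lc.QT.Dom

/-!
Acyclic linear networks over a graph of large girth.
-/

open Matrix Finset Module

namespace Pool.Agent.MP_5daf37_lc.QT

open BN TL

variable {𝕜 : Type} [RCLike 𝕜] {E ι κ l O : Type} [Fintype E] [Fintype ι] [Fintype κ] [Fintype l]
  [Fintype O] [DecidableEq E] [DecidableEq ι] [DecidableEq κ] [DecidableEq O]

theorem mulVec_part {a b : Type} [Fintype b] {M : Matrix a b 𝕜} {f : a → ℕ} {g : b → ℕ}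
    (h : ∀ i j, M i j ≠ 0 → f i = g j) (v : b → 𝕜) (c : ℕ) :
    M *ᵥ part g v c = part f (M *ᵥ v) c := by
  funext i
  simp only [part, mulVec, dotProduct]
  split_ifs with e
  · refine sum_congr rfl fun j _ => ?_
    by_cases a : M i j = 0
    · simp [a]
    · rw [if_pos ((h i j a).symm.trans e)]
  · refine sum_eq_zero fun j _ => ?_
    by_cases a : M i j = 0
    · simp [a]
    · rw [if_neg fun b => e ((h i j a).trans b), mul_zero]

theorem net {G : SimpleGraph ℕ} {T : Matrix E E 𝕜} {B : Matrix E ι 𝕜} {C : Matrix κ E 𝕜}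
    {D : Matrix κ ι 𝕜} {en : Bool × O → ℕ} {dt : E → Bool × O} {ρ : E → ℕ} {li : ι → ℕ}
    {lo : κ → ℕ}
    (adj : ∀ b o, G.Adj (en (b, o)) (en (!b, o)))
    (uq : ∀ h h' : Bool × O, en h = en h' → en (!h.1, h.2) = en (!h'.1, h'.2) → h = h')
    (sT : ∀ e e', T e e' ≠ 0 → en (dt e) = en (!(dt e').1, (dt e').2) ∧ ρ e' < ρ e)
    (sB : ∀ e j, B e j ≠ 0 → en (dt e) = li j)
    (sC : ∀ i e, C i e ≠ 0 → lo i = en (!(dt e).1, (dt e).2))
    (sD : ∀ i j, D i j ≠ 0 → lo i = li j) {k : ℕ} (hk : ((2 * k + 2 : ℕ) : ℕ∞) < G.egirth)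
    {U : Matrix κ ι 𝕜} {γ : ℝ} (c0 : 0 < γ)
    (hU : ∀ x, γ * nsq x ≤ nsq (U *ᵥ x) ∧ nsq (U *ᵥ x) ≤ nsq x)
    (hf : 256 * ∑ v ∈ univ.image li ∪ univ.image lo, ∑ i with G.edist (lo i) v ≤ k,
      ∑ j with G.edist (li j) v ≤ k, ‖U i j‖ ^ 2 ≤ γ ^ 2 * Fintype.card ι)
    {Z : Matrix E ι 𝕜} {A : Matrix l ι 𝕜} (hA : 32 * (A.rank : ℝ) ≤ γ * Fintype.card ι)
    (hx : ∀ x, A *ᵥ x = 0 → Z *ᵥ x = T *ᵥ Z *ᵥ x + B *ᵥ x ∧ U *ᵥ x = C *ᵥ Z *ᵥ x + D *ᵥ x) :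
    γ ^ 2 * k * Fintype.card ι ≤ 64 * Fintype.card E := by
  let σ : Bool × O → Bool × O := fun h => (!h.1, h.2)
  have hσ : ∀ h, σ (σ h) = h := fun h => by simp [σ]
  have hn : ∀ h, σ h ≠ h := fun h e => by simpa [σ] using congrArg Prod.fst e
  have sT' : ∀ e e', T e e' ≠ 0 → ρ e' < ρ e := fun e e' h => (sT e e' h).2
  let N := Nm σ dt T B
  obtain ⟨s, hs⟩ := exists_fix (N := N) (Lg := Lm C D) hσ
  let V : O → Submodule 𝕜 (E → 𝕜) := fun o => s.1 (true, o) ⊓ s.1 (false, o)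
  have v1 : ∀ (h : Bool × O) y, y ∈ V h.2 ↔ y ∈ s.1 h ∧ y ∈ s.1 (σ h) := by
    rintro ⟨_ | _, o⟩ y
    exacts [and_comm, Iff.rfl]
  have k0 : ∀ h ξ, nsq (s.2 h *ᵥ N h *ᵥ ξ) + En N (Lm C D) s h ξ =
      ∑ h, nsq (s.2 h *ᵥ N h *ᵥ ξ) + nsq (Lm C D *ᵥ ξ) := fun h ξ => by
    rw [En, ← add_assoc, add_sum_erase _ (fun h => nsq (s.2 h *ᵥ N h *ᵥ ξ)) (mem_univ h)]
  have v2 : ∀ (h : Bool × O), ∀ y ∈ V h.2, ∃ ξ, (∀ g, N g *ᵥ ξ ∈ s.1 g) ∧ N h *ᵥ ξ = y ∧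
      ∑ h, nsq (s.2 h *ᵥ N h *ᵥ ξ) + nsq (Lm C D *ᵥ ξ) ≤
        nsq (s.2 h *ᵥ y) + nsq (s.2 (σ h) *ᵥ y) := fun h y hy => by
    obtain ⟨a, b⟩ := (v1 h y).1 hy
    obtain ⟨ξ, c, rfl, e⟩ := hs.att h y b
    exact ⟨ξ, fun g => if h' : g = h then h' ▸ a else c g h', rfl, by linarith [k0 h ξ]⟩
  have v3 : ∀ ξ, (∀ g, N g *ᵥ ξ ∈ s.1 g) → ∀ h, N h *ᵥ ξ ∈ V h.2 := fun ξ a h =>
    (v1 h _).2 ⟨a h, hs.dom h ξ fun g _ => a g⟩
  choose J c w j1 j2 j3 j4 j5 using fun o => exists_diag (V o) (s.2 (true, o)) (s.2 (false, o))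
    fun y hy h => by
      obtain ⟨ξ, a, rfl, b⟩ := v2 (true, o) y hy
      rw [definite hσ hn sT' hs a (b.trans h), mulVec_zero]
  let W := (o : O) × Fin (finrank 𝕜 (V o))
  let ω : Bool × W → ℝ := fun g => if g.1 then w g.2.1 g.2.2 else 1 - w g.2.1 g.2.2
  have j6 : ∀ h : Bool × O, ∀ y ∈ V h.2,
      nsq (s.2 h *ᵥ y) = ∑ i, ω (h.1, ⟨h.2, i⟩) * ‖(c h.2 *ᵥ y) i‖ ^ 2 := by
    rintro ⟨_ | _, o⟩ y hy
    exacts [(j5 o y hy).2, (j5 o y hy).1]
  have w0 : ∀ g, 0 ≤ ω g := by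
    rintro ⟨_ | _, g⟩
    exacts [sub_nonneg.2 (j4 _ _).2, (j4 _ _).1]
  have w1 : ∀ g : Bool × W, ω g + ω (!g.1, g.2) = 1 := by
    rintro ⟨_ | _, g⟩ <;> simp [ω]
  have j7 : ∀ h : Bool × O, ∀ y ∈ V h.2,
      nsq (s.2 h *ᵥ y) + nsq (s.2 (σ h) *ᵥ y) = nsq (c h.2 *ᵥ y) := fun h y hy => by
    rw [j6 h y hy, j6 (σ h) y hy, ← sum_add_distrib, nsq]
    exact sum_congr rfl fun i _ => by rw [← add_mul, w1 (h.1, ⟨h.2, i⟩), one_mul]
  let Φ : Matrix ((Bool × W) ⊕ (ι ⊕ κ)) (E ⊕ ι) 𝕜 :=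
    fromRows (of fun g => (c g.2.1 * N (g.1, g.2.1)) g.2.2) (Lm C D)
  have f1 : ∀ ξ g, (Φ *ᵥ ξ) (.inl g) = (c g.2.1 *ᵥ N (g.1, g.2.1) *ᵥ ξ) g.2.2 := fun ξ g => by
    rw [mulVec_mulVec]; rfl
  have f2 : ∀ ξ a, (Φ *ᵥ ξ) (.inr a) = (Lm C D *ᵥ ξ) a := fun _ _ => rfl
  let S := (⨅ h, (s.1 h).comap (N h).mulVecLin).map Φ.mulVecLin
  have s1 : ∀ v, v ∈ S ↔ ∃ ξ, (∀ g, N g *ᵥ ξ ∈ s.1 g) ∧ Φ *ᵥ ξ = v := fun v => by simp [S]
  have s2 : ∀ ξ, (∀ g, N g *ᵥ ξ ∈ s.1 g) → ∑ t, Sum.elim ω 1 t * ‖(Φ *ᵥ ξ) t‖ ^ 2 =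
      ∑ h, nsq (s.2 h *ᵥ N h *ᵥ ξ) + nsq (Lm C D *ᵥ ξ) := fun ξ a => by
    rw [Fintype.sum_sum_type, sum_congr rfl fun h _ => j6 h _ (v3 ξ a h), Fintype.sum_prod_type,
      Fintype.sum_prod_type]
    simp only [f1, f2, Sum.elim_inl, Sum.elim_inr, Pi.one_apply, one_mul, nsq]
    congr 1
    exact sum_congr rfl fun b _ => Fintype.sum_sigma _
  let loc : (Bool × W) ⊕ (ι ⊕ κ) → ℕ := Sum.elim (fun g => en (g.1, g.2.1)) (Sum.elim li lo)
  obtain ⟨K, k1, k2, k3, k4, k5, k6⟩ := exists_kernel S (ω := Sum.elim ω 1)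
    (by rintro (t | t); exacts [w0 t, zero_le_one])
    (fun v hv h => by
      obtain ⟨ξ, a, rfl⟩ := (s1 v).1 hv
      rw [definite hσ hn sT' hs a (s2 ξ a ▸ h), mulVec_zero])
    (loc := loc) fun a v hv => by
      obtain ⟨ξ, b, rfl⟩ := (s1 v).1 hv
      obtain ⟨y, x, rfl⟩ : ∃ y v, ξ = Sum.elim y v := ⟨_, _, (Sum.elim_comp_inl_inr ξ).symm⟩
      have e : ∀ g, N g *ᵥ Sum.elim (part (fun e => en (σ (dt e))) y a) (part li x a) =
          if en g = a then N g *ᵥ Sum.elim y x else 0 := fun g => by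
        rw [Nm_mulVec, Nm_mulVec, mulVec_part (fun e e' h => (sT e e' h).1), mulVec_part sB]
        funext e
        simp only [br, part, Pi.add_apply, ite_apply, Pi.zero_apply]
        by_cases h1 : dt e = g
        · by_cases h2 : en g = a <;> simp [h1, h2]
        · by_cases h2 : σ (dt e) = g <;> simp [h1, h2]
      refine (s1 _).2 ⟨Sum.elim (part (fun e => en (σ (dt e))) y a) (part li x a), fun g => ?_, ?_⟩
      · rw [e]
        split_ifs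
        exacts [b g, zero_mem _]
      · funext t
        rcases t with g | t
        · rw [f1, e, part, f1]
          by_cases h : en (g.1, g.2.1) = a <;> simp [loc, h]
        · rw [f2, part, f2, Lm_mulVec, Lm_mulVec, mulVec_part sC, mulVec_part sD]
          rcases t with t | t
          · rfl
          · by_cases h : lo t = a <;> simp [loc, part, h]
  have k7 : ∀ g h : Bool × W, (g.1, g.2.1) = (h.1, h.2.1) →
      K (.inl g) (.inl h) = if g = h then 1 else 0 := by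
    rintro ⟨b, o, i⟩ ⟨b', o', j⟩ e
    obtain ⟨rfl, rfl⟩ : b = b' ∧ o = o' := Prod.ext_iff.1 e
    have inj : Function.Injective fun i => (.inl (b, ⟨o, i⟩) : (Bool × W) ⊕ (ι ⊕ κ)) :=
      fun i j e => sigma_mk_injective (β := fun o => Fin (finrank 𝕜 (V o)))
        (congrArg Prod.snd (Sum.inl.inj e))
    have := k6 (univ.map ⟨_, inj⟩) (.inl (b, ⟨o, j⟩)) (mem_map_of_mem _ (mem_univ j))
      (fun v hv => by
        obtain ⟨ξ, a, rfl⟩ := (s1 v).1 hv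
        rw [sum_map, s2 ξ a, ← k0 (b, o)]
        refine le_of_eq_of_le ?_ (add_le_add_right (hs.low (b, o) ξ fun g _ => a g) _)
        rw [j7 _ _ (v3 ξ a _)]
        exact sum_congr rfl fun i _ => congrArg (‖·‖ ^ 2) (f1 _ _))
      (by
        obtain ⟨ξ, a1, a2, a3⟩ := v2 (b, o) _ (j1 o (Pi.single j 1))
        refine ⟨_, (s1 _).2 ⟨ξ, a1, rfl⟩, by rw [f1, a2, j3]; simp, ?_⟩
        rw [s2 ξ a1]
        refine a3.trans (le_of_eq ?_)
        rw [j7 _ _ (j1 o _), j3]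
        simp [nsq, Pi.single_apply, apply_ite norm])
      (.inl (b, ⟨o, i⟩)) (mem_map_of_mem ⟨_, inj⟩ (mem_univ i))
    simpa using this
  have n1 : Fintype.card W ≤ Fintype.card E := by
    rw [Fintype.card_sigma, ← Fintype.card_congr (Equiv.sigmaFiberEquiv fun e => (dt e).2),
      Fintype.card_sigma]
    refine sum_le_sum fun o _ => ?_
    rw [Fintype.card_fin, ← finrank_fintype_fun_eq_card 𝕜]
    refine LinearMap.finrank_le_finrank_of_injective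
      (f := LinearMap.funLeft 𝕜 𝕜 Subtype.val ∘ₗ (V o).subtype)
      ((injective_iff_map_eq_zero _).2 fun y hy => Subtype.ext (funext fun e => ?_))
    by_cases h : (dt e).2 = o
    · exact congrFun hy ⟨e, h⟩
    · obtain ⟨ξ, -, a, -⟩ := v2 (true, o) y y.2
      obtain ⟨y, x, rfl⟩ : ∃ y v, ξ = Sum.elim y v := ⟨_, _, (Sum.elim_comp_inl_inr ξ).symm⟩
      rw [← a, Nm_mulVec, br, if_neg fun b => h (congrArg Prod.snd b),
        if_neg fun b => h (congrArg Prod.snd b)]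
      rfl
  have n2 : finrank 𝕜 S ≤ Fintype.card W + Fintype.card ι := by
    rw [← finrank_fintype_fun_eq_card 𝕜, ← finrank_fintype_fun_eq_card 𝕜, ← finrank_prod]
    refine LinearMap.finrank_le_finrank_of_injective
      (f := ((LinearMap.funLeft 𝕜 𝕜 (fun g : W => Sum.inl (true, g)) -
        LinearMap.funLeft 𝕜 𝕜 fun g : W => Sum.inl (false, g)).prod
          (LinearMap.funLeft 𝕜 𝕜 fun j : ι => Sum.inr (Sum.inl j))) ∘ₗ S.subtype)
      ((injective_iff_map_eq_zero _).2 fun v hv => Subtype.ext ?_)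
    obtain ⟨v, h⟩ := v
    obtain ⟨ξ, a, rfl⟩ := (s1 v).1 h
    obtain ⟨y, x, rfl⟩ : ∃ y v, ξ = Sum.elim y v := ⟨_, _, (Sum.elim_comp_inl_inr ξ).symm⟩
    obtain rfl : x = 0 := funext fun j => by
      have : (Φ *ᵥ Sum.elim y x) (.inr (.inl j)) = 0 := congrFun (congrArg Prod.snd hv) j
      rwa [f2, Lm_mulVec] at this
    have b1 : ∀ o, N (true, o) *ᵥ Sum.elim y 0 = N (false, o) *ᵥ Sum.elim y 0 := fun o => by
      rw [← j2 o _ (v3 _ a (true, o)), ← j2 o _ (v3 _ a (false, o))]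
      congr 1
      funext i
      exact (f1 _ (true, ⟨o, i⟩)).symm.trans ((sub_eq_zero.1
        (congrFun (congrArg Prod.fst hv) ⟨o, i⟩)).trans (f1 _ (false, ⟨o, i⟩)))
    have b2 : ∀ h, N h *ᵥ Sum.elim y 0 = N (σ h) *ᵥ Sum.elim y 0 := by
      rintro ⟨_ | _, o⟩
      exacts [(b1 o).symm, b1 o]
    have b3 : T *ᵥ y = y := funext fun e => by
      have := congrFun (b2 (dt e)) e
      rw [Nm_mulVec, Nm_mulVec, br_swap hσ hn] at this
      simpa [br] using this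
    obtain rfl : y = 0 := Sp.zero (ρ := ρ) fun r => by
      induction r with
      | zero => exact fun _ h => nomatch h
      | succ r ih => exact b3 ▸ ih.mulVec sT'
    simp
  have h := ports (G := G) (σ := fun g : Bool × W => (!g.1, g.2)) (fun g => by simp) (loc := loc)
    (fun g => adj g.1 g.2.1) hk w0 w1 k1 k2 k5 (fun g h a b => k7 g h (uq _ _ a b)) (by
      rw [Fintype.sum_sum_type, Fintype.sum_prod_type_right] at k4
      simp only [Sum.elim_inl, Sum.elim_inr, Pi.one_apply, one_mul, k7 _ _ rfl, if_true,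
        RCLike.one_re, mul_one, Fintype.sum_bool] at k4
      have w2 : ∀ g, ω (true, g) + ω (false, g) = 1 := fun g => w1 (true, g)
      have : (finrank 𝕜 S : ℝ) ≤ Fintype.card W + Fintype.card ι := by exact_mod_cast n2
      simp only [w2, sum_const, card_univ, nsmul_eq_mul, mul_one] at k4
      linarith) c0 hU (by
      have : (univ.image fun a => loc (.inr a)) = univ.image li ∪ univ.image lo := by
        ext v
        simp [loc]
      rw [this]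
      exact hf)
    (Z := of fun g => (c g.2.1 * diagonal (fun e => if (dt e).2 = g.2.1 then (1 : 𝕜) else 0) * Z)
      g.2.2)
    hA (fun _ _ => rfl) fun x h => k3 _ ((s1 _).2 ⟨Sum.elim (Z *ᵥ x) x, fun g => ?_, ?_⟩)
  · rw [Fintype.card_prod, Fintype.card_bool] at h
    have h1 : (Fintype.card W : ℝ) ≤ Fintype.card E := by exact_mod_cast n1
    push_cast at h
    linarith
  · rw [Nm_mulVec, ← (hx x h).1]
    exact true_mem hσ hn sT' hs (hx x h).1 g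
  · funext t
    rcases t with ⟨b, o, i⟩ | t
    · rw [f1, Nm_mulVec, ← (hx x h).1]
      show _ = ((c o * diagonal (fun e => if (dt e).2 = o then (1 : 𝕜) else 0) * Z) *ᵥ x) i
      rw [← mulVec_mulVec, ← mulVec_mulVec]
      congr 2
      funext e
      rw [mulVec_diagonal, br]
      rcases hd : dt e with ⟨b', o'⟩
      by_cases h1 : o' = o <;> cases b <;> cases b' <;> simp [σ, h1]
    · rw [f2, Lm_mulVec, ← (hx x h).2, Sum.elim_inr, fromRows_mulVec, one_mulVec]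

end Pool.Agent.MP_5daf37_lc.QT
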