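import Pool.Agent.MP_5daf37_lc.QT.Scat
import Pool.Agent.MP_5daf37_lc.TL.Circ

/-!
The block scattering matrix of a kernel at a fixed point of the messages.
-/

open Matrix Finset

namespace Pool.Agent.MP_5daf37_lc.QT

open BN TL

variable {𝕜 : Type} [RCLike 𝕜] {W ι o l : Type} [Fintype W] [Fintype ι] [Fintype o] [Fintype l]

theorem energy {H : Type} [Fintype H] [DecidableEq H] {K : Matrix H H 𝕜} {ω : H → ℝ} (k1 : Kᴴ = K)
    (k3 : K * diagonal (fun t => (ω t : 𝕜)) * K = K) (y : H → 𝕜) :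
    ((∑ s, ω s * ‖(K *ᵥ y) s‖ ^ 2 : ℝ) : 𝕜) = star y ⬝ᵥ K *ᵥ y := by
  conv_rhs => rw [← k3, ← mulVec_mulVec, ← mulVec_mulVec, dotProduct_mulVec]
  conv_rhs => enter [1]; rw [← k1, ← star_mulVec]
  push_cast
  refine sum_congr rfl fun t _ => ?_
  rw [mulVec_diagonal, mul_left_comm, Pi.star_apply, RCLike.star_def, RCLike.conj_mul]

open Classical in
theorem darts (G : SimpleGraph ℕ) : Ports G (fun p : ℕ × ℕ => G.Adj p.1 p.2)
    (fun p => if G.Adj p.1 p.2 then p.swap else p) Prod.fst where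
  inv t := by
    by_cases h : G.Adj t.1 t.2
    · simp [h, h.symm]
    · simp [h]
  fix t h := if_neg h
  adj t h := by simp [h]
  uniq s t h h' e e' := Prod.ext e (by simpa [h, h'] using e')

theorem ports [DecidableEq W] [DecidableEq ι] [DecidableEq o] {G : SimpleGraph ℕ} {σ : W → W}
    (hσ : ∀ h, σ (σ h) = h) {loc : W ⊕ (ι ⊕ o) → ℕ}
    (adj : ∀ h, G.Adj (loc (.inl h)) (loc (.inl (σ h)))) {k : ℕ}
    (hk : ((2 * k + 2 : ℕ) : ℕ∞) < G.egirth)
    {ω : W → ℝ} (w0 : ∀ h, 0 ≤ ω h) (w1 : ∀ h, ω h + ω (σ h) = 1)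
    {K : Matrix (W ⊕ (ι ⊕ o)) (W ⊕ (ι ⊕ o)) 𝕜} (k1 : Kᴴ = K)
    (k3 : K * diagonal (fun t => ((Sum.elim ω 1 t : ℝ) : 𝕜)) * K = K)
    (k4 : ∀ s t, K s t ≠ 0 → loc s = loc t)
    (k5 : ∀ g h, loc (.inl g) = loc (.inl h) → loc (.inl (σ g)) = loc (.inl (σ h)) →
      K (.inl g) (.inl h) = if g = h then 1 else 0)
    (k6 : ∑ a, RCLike.re (K (.inr a) (.inr a)) ≤ Fintype.card ι)
    {U : Matrix o ι 𝕜} {c : ℝ} (c0 : 0 < c)
    (hU : ∀ x, c * nsq x ≤ nsq (U *ᵥ x) ∧ nsq (U *ᵥ x) ≤ nsq x)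
    (hf : 256 * ∑ v ∈ univ.image fun a => loc (.inr a),
      ∑ i with G.edist (loc (.inr (.inr i))) v ≤ k, ∑ j with G.edist (loc (.inr (.inl j))) v ≤ k,
        ‖U i j‖ ^ 2 ≤ c ^ 2 * Fintype.card ι)
    {Z : Matrix W ι 𝕜} {A : Matrix l ι 𝕜} (hA : 32 * (A.rank : ℝ) ≤ c * Fintype.card ι)
    (hZ : ∀ h j, Z (σ h) j = Z h j)
    (hx : ∀ x, A *ᵥ x = 0 → Sum.elim (Z *ᵥ x) (fromRows 1 U *ᵥ x) = K *ᵥ
      diagonal (fun t => ((Sum.elim ω 1 t : ℝ) : 𝕜)) *ᵥ Sum.elim (Z *ᵥ x) (fromRows 1 U *ᵥ x)) :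
    c ^ 2 * k * Fintype.card ι ≤ 32 * Fintype.card W := by
  classical
  have re : ∀ {β : Type} [AddCommMonoid β] (f : W → β), ∑ h, f (σ h) = ∑ h, f h :=
    fun f => Equiv.sum_comp (Function.Involutive.toPerm σ hσ) f
  let blk : W ⊕ (ι ⊕ o) → ℕ × ℕ := fun s => (loc s, loc (Sum.map σ id s))
  let K' := K - diagonal (Sum.elim 1 0)
  let cf : W ⊕ (ι ⊕ o) → ℝ := Sum.elim (fun h => (√(ω (σ h)))⁻¹) 1
  let Cf : Matrix (W ⊕ (ι ⊕ o)) (W ⊕ (ι ⊕ o)) 𝕜 := diagonal fun s => (cf s : 𝕜)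
  let Gm : Matrix (W ⊕ (ι ⊕ o)) (W ⊕ (ι ⊕ o)) 𝕜 :=
    fromBlocks (of fun g h => if σ g = h then ((√(ω g) : ℝ) : 𝕜) else 0) 0 0 0
  let In : Matrix (W ⊕ (ι ⊕ o)) (ι ⊕ o) 𝕜 := fromRows 0 1
  have q0 : ∀ s, 0 ≤ Sum.elim ω (1 : ι ⊕ o → ℝ) s := by
    rintro (t | t); exacts [w0 t, zero_le_one]
  have b1 : ∀ h a, blk (.inl h) ≠ blk (.inr a) := fun h a e =>
    (adj h).ne ((congrArg Prod.fst e).trans (congrArg Prod.snd e).symm)
  have c1 : ∀ s t, K' s t ≠ 0 → loc s = loc t := fun s t e => by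
    by_cases h : s = t
    · rw [h]
    · exact k4 s t (by simpa [K', h] using e)
  have c2 : ∀ s h, blk s = blk (.inl h) → K' s (.inl h) = 0 := by
    rintro (g | a) h e
    · simp [K', k5 g h (congrArg Prod.fst e) (congrArg Prod.snd e), diagonal_apply]
    · exact absurd e.symm (b1 h a)
  have c3 : ∀ b (y : W ⊕ (ι ⊕ o) → 𝕜), (∀ c, y c ≠ 0 → blk c = b) → (∀ a, y (.inr a) = 0) →
      ∑ s, Sum.elim ω 1 s * ‖(K' *ᵥ y) s‖ ^ 2 = ∑ h, ω (σ h) * ‖y (.inl h)‖ ^ 2 :=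
    fun b y hy h0 => by
    have h1 : K *ᵥ y = K' *ᵥ y + y := by
      funext s
      rcases s with s | s <;> simp [K', sub_mulVec, mulVec_diagonal, h0]
    have h2 : ∀ s, y s ≠ 0 → (K' *ᵥ y) s = 0 := fun s hs => sum_eq_zero fun t _ => by
      by_cases e : y t = 0
      · simp [e]
      · rcases t with t | t
        · exact mul_eq_zero_of_left (c2 s t ((hy s hs).trans (hy _ e).symm)) _
        · exact absurd (h0 t) e
    have h3 := energy k1 k3 y
    have h4 : star y ⬝ᵥ K' *ᵥ y = 0 := sum_eq_zero fun s _ => by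
      by_cases e : y s = 0
      · simp [e]
      · simp [h2 s e]
    rw [h1, dotProduct_add, h4, zero_add, ← nsq_eq, RCLike.ofReal_inj] at h3
    have h5 : ∑ s, Sum.elim ω 1 s * ‖(K' *ᵥ y + y) s‖ ^ 2 =
        ∑ s, Sum.elim ω 1 s * ‖(K' *ᵥ y) s‖ ^ 2 + ∑ s, Sum.elim ω 1 s * ‖y s‖ ^ 2 := by
      rw [← sum_add_distrib]
      refine sum_congr rfl fun s _ => ?_
      by_cases e : y s = 0
      · simp [e]
      · simp [h2 s e]
    have h6 : ∑ h, ω (σ h) * ‖y (.inl h)‖ ^ 2 + ∑ s, Sum.elim ω 1 s * ‖y s‖ ^ 2 = nsq y := by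
      simp only [nsq, Fintype.sum_sum_type (α₁ := W), h0, Sum.elim_inl, norm_zero]
      simp only [ne_eq, OfNat.ofNat_ne_zero, not_false_eq_true, zero_pow, mul_zero, sum_const_zero,
        add_zero, ← sum_add_distrib]
      exact sum_congr rfl fun h _ => by linear_combination ‖y (.inl h)‖ ^ 2 * w1 h
    linarith
  have c4 : ∀ y : W ⊕ (ι ⊕ o) → 𝕜, (∀ h, y (.inl h) = 0) → K' *ᵥ y = K *ᵥ y := fun y h0 => by
    funext s
    rcases s with s | s <;> simp [K', sub_mulVec, mulVec_diagonal, h0]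
  have c5 : ∀ y : W ⊕ (ι ⊕ o) → 𝕜, (∀ h, y (.inl h) = 0) →
      ∑ s, Sum.elim ω 1 s * ‖(K *ᵥ y) s‖ ^ 2 ≤ nsq y := fun y h0 => by
    have h1 := energy k1 k3 y
    set κ := ∑ s, Sum.elim ω 1 s * ‖(K *ᵥ y) s‖ ^ 2 with hκ
    have h2 := cauchy (fun a => y (.inr a)) fun a => (K *ᵥ y) (.inr a)
    have h3 : star y ⬝ᵥ K *ᵥ y = star (fun a => y (.inr a)) ⬝ᵥ fun a => (K *ᵥ y) (.inr a) := by
      simp [dotProduct, Fintype.sum_sum_type (α₁ := W), h0]
    have h4 : nsq y = nsq fun a => y (.inr a) := by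
      simp [nsq, Fintype.sum_sum_type (α₁ := W), h0]
    have h5 : (nsq fun a => (K *ᵥ y) (.inr a)) ≤ κ := by
      rw [hκ, Fintype.sum_sum_type]
      exact le_add_of_nonneg_of_le (sum_nonneg fun h _ => mul_nonneg (w0 h) (sq_nonneg _))
        (by simp [nsq])
    rw [← h3, ← h1, RCLike.norm_ofReal, sq_abs, ← h4] at h2
    by_contra h6
    nlinarith [nsq_nonneg y, mul_le_mul_of_nonneg_left h5 (nsq_nonneg y)]
  have c6 : ∀ g, ω (σ g) * cf (.inl g) ^ 2 ≤ 1 := fun g => by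
    show _ * (√(ω (σ g)))⁻¹ ^ 2 ≤ 1
    rw [inv_pow, Real.sq_sqrt (w0 _)]
    exact mul_inv_le_one
  have g1 : ∀ (y : W ⊕ (ι ⊕ o) → 𝕜) h, (Gm *ᵥ y) (.inl h) = (√(ω h) : ℝ) * y (.inl (σ h)) :=
    fun y h => by simp [Gm, mulVec, dotProduct, Fintype.sum_sum_type (α₁ := W)]
  have g2 : ∀ (y : W ⊕ (ι ⊕ o) → 𝕜) a, (Gm *ᵥ y) (.inr a) = 0 :=
    fun y h => by simp [Gm, mulVec, dotProduct, Fintype.sum_sum_type (α₁ := W)]
  have g3 : ∀ s t, Gm s t ≠ 0 → ∃ h, s = .inl (σ h) ∧ t = .inl h := by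
    rintro (s | s) (t | t) e
    · obtain rfl : σ s = t := by_contra fun h => e (if_neg h)
      exact ⟨σ s, by rw [hσ], rfl⟩
    all_goals exact absurd rfl e
  have g4 : ∀ u : W ⊕ (ι ⊕ o) → 𝕜, nsq (u ᵥ* (Cf * K' * Gm)) + nsq (u ᵥ* (Cf * K' * In)) =
      ∑ s, Sum.elim ω 1 s * ‖(K' *ᵥ fun t => cf t * star (u t)) s‖ ^ 2 := fun u => by
    have h1 : K'ᴴ = K' := by
      rw [conjTranspose_sub, k1, diagonal_conjTranspose]
      congr 2
      funext s
      rcases s with s | s <;> simp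
    have h2 : u ᵥ* (Cf * K') = star (K' *ᵥ fun t => cf t * star (u t)) := by
      rw [star_mulVec, h1, ← vecMul_vecMul]
      congr 1
      funext s
      simp [Cf, vecMul_diagonal, mul_comm]
    rw [← vecMul_vecMul, ← vecMul_vecMul u (Cf * K'), h2]
    generalize (K' *ᵥ fun t => cf t * star (u t)) = y
    have h3 : ∀ h, (star y ᵥ* Gm) (.inl (σ h)) = star (y (.inl h)) * (√(ω h) : ℝ) := fun h => by
      simp [Gm, vecMul, dotProduct, Fintype.sum_sum_type (α₁ := W),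
        (Function.Involutive.injective hσ).eq_iff]
    have h4 : ∀ a, (star y ᵥ* Gm) (.inr a) = 0 := fun a => by
      simp [Gm, vecMul, dotProduct, Fintype.sum_sum_type (α₁ := W)]
    have h5 : ∀ a, (star y ᵥ* In) a = star (y (.inr a)) := fun a => by
      simp [In, vecMul, dotProduct, Fintype.sum_sum_type (α₁ := W), one_apply]
    simp only [nsq, Fintype.sum_sum_type (α₁ := W), h4, h5]
    rw [← re]
    simp [h3, mul_pow, Real.sq_sqrt (w0 _), mul_comm]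
  have x4 : ∀ s t, (Cf * K' * Gm) s t ≠ 0 → ∃ h, t = .inl h ∧ loc s = loc (.inl (σ h)) ∧
      blk s ≠ blk (.inl (σ h)) := fun s t e => by
    obtain ⟨u, v, a, b, c⟩ := mul3_ne e
    obtain rfl : s = u := by_contra fun h => a (diagonal_apply_ne _ h)
    obtain ⟨h, rfl, rfl⟩ := g3 _ _ c
    exact ⟨h, rfl, c1 _ _ b, fun e => b (c2 _ _ e)⟩
  have P := darts G
  refine scat (X := Cf * K' * Gm) (Y := Cf * K' * In) (blk := blk)
    (R := Reach (fun p : ℕ × ℕ => G.Adj p.1 p.2) (fun p => if G.Adj p.1 p.2 then p.swap else p)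
      Prod.fst) (pos := Prod.fst) (pre := Prod.snd) (pre' := fun a => loc (.inr a))
    ⟨fun b => .zero, fun b i c t h e => ?_, fun c t e => ?_, fun c a e => ?_,
      fun b i j c c' h h' hi hj e => P.unique hk h h' hi hj e, fun b u hu => ?_⟩
    (fun s b => by_contra fun e => by obtain ⟨h, a, -⟩ := x4 _ _ e; cases a) ?_
    (π := fun h => ω h * ω (σ h)) (fun h => mul_nonneg (w0 _) (w0 _))
    (fun h => by nlinarith [w1 h, sq_nonneg (ω h - ω (σ h))]) (fun b y hy => ?_)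
    (nr := fun b c => G.edist (loc (.inr c)) b.1 ≤ k) (fun a i hi b c h e => ?_) c0 hU ?_
    (Z := diagonal (fun h => ((√(ω (σ h)) : ℝ) : 𝕜)) * Z) hA fun x h => ?_
  · obtain ⟨g, rfl, a1, a2⟩ := x4 _ _ e
    have a3 : (if G.Adj (blk (.inl g)).1 (blk (.inl g)).2 then (blk (.inl g)).swap
        else blk (.inl g)) = blk (.inl (σ g)) := by
      exact (if_pos (adj g)).trans (by simp [blk, hσ])
    exact h.step (adj g) (by rw [a3]; exact a1) (by rw [a3]; exact a2)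
  · obtain ⟨g, rfl, a1, -⟩ := x4 _ _ e
    exact a1
  · obtain ⟨u, v, a1, a2, a3⟩ := mul3_ne e
    obtain rfl : c = u := by_contra fun h => a1 (diagonal_apply_ne _ h)
    rcases v with v | v
    · exact absurd rfl a3
    · obtain rfl : v = a := by_contra fun h => a3 (one_apply_ne h)
      exact c1 _ _ a2
  · rw [g4]
    by_cases h : ∀ a, u (.inr a) = 0
    · rw [c3 b _ (fun c hc => hu c (star_ne_zero.1 (right_ne_zero_of_mul hc))) (by simp [h]), nsq,
        Fintype.sum_sum_type]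
      refine le_add_of_le_of_nonneg (sum_le_sum fun g _ => ?_) (sum_nonneg fun _ _ => sq_nonneg _)
      rw [norm_mul, mul_pow, RCLike.norm_ofReal, sq_abs, norm_star, ← mul_assoc]
      exact mul_le_of_le_one_left (sq_nonneg _) (c6 g)
    · obtain ⟨a, ha⟩ := not_forall.1 h
      have h0 : ∀ g, u (.inl g) = 0 := fun g => by_contra fun e =>
        b1 g a ((hu _ e).trans (hu _ ha).symm)
      rw [c4 _ (by simp [h0])]
      refine (c5 _ (by simp [h0])).trans (le_of_eq ?_)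
      simp [nsq, Fintype.sum_sum_type (α₁ := W), h0, cf]
  · refine le_of_eq_of_le (sum_congr rfl fun a _ => ?_) k6
    have h1 := g4 (Pi.single (.inr a) 1)
    have h2 : (fun t => (cf t : 𝕜) * star ((Pi.single (.inr a) 1 : W ⊕ (ι ⊕ o) → 𝕜) t)) =
        Pi.single (.inr a) 1 := by
      funext t
      by_cases e : t = .inr a <;> simp [e, cf]
    have h3 := congrArg RCLike.re (energy k1 k3 (Pi.single (.inr a) 1))
    rw [single_one_vecMul, single_one_vecMul, h2, c4 _ (by simp)] at h1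
    rw [RCLike.ofReal_re] at h3
    exact h1.trans (h3.trans (by simp))
  · have h1 := c3 b.swap (Gm *ᵥ y) (by
      rintro (c | c) hc
      · rw [g1] at hc
        rw [← hy _ (right_ne_zero_of_mul hc)]
        simp [blk, hσ]
      · exact absurd (g2 y c) hc) (g2 y)
    simp only [g1, norm_mul, mul_pow, RCLike.norm_ofReal, sq_abs, Real.sq_sqrt (w0 _)] at h1
    rw [← re fun h => ω h * ω (σ h) * ‖y (.inl h)‖ ^ 2]
    simp only [hσ, mul_assoc]
    rw [← h1, ← Matrix.mul_assoc, ← mulVec_mulVec, ← mulVec_mulVec]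
    refine sum_le_sum fun s _ => ?_
    rw [mulVec_diagonal, norm_mul, mul_pow, RCLike.norm_ofReal, sq_abs, ← mul_assoc]
    refine mul_le_mul_of_nonneg_right ?_ (sq_nonneg _)
    rcases s with s | s
    · simp only [Sum.elim_inl, mul_assoc]
      exact mul_le_of_le_one_right (w0 s) (c6 s)
    · simp [cf]
  · obtain ⟨p, -, p2, -⟩ := P.exists_path hk h hi
    have h1 : ¬ G.Adj (blk (.inr a)).1 (blk (.inr a)).2 := G.irrefl
    have h2 := SimpleGraph.edist_le (p.copy e (congrArg Prod.fst (if_neg h1)))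
    rw [SimpleGraph.Walk.length_copy, p2, if_neg h1, add_zero] at h2
    exact h2.trans (by exact_mod_cast hi)
  · refine le_of_eq_of_le ?_ hf
    rw [show (univ.image fun a => blk (.inr a)) =
      (univ.image fun a => loc (.inr a)).image fun v => (v, v) by rw [image_image]; rfl,
      sum_image fun a _ b _ e => congrArg Prod.fst e]
  · have h1 := hx x h
    have h2 : ∀ g, (Z *ᵥ x) (σ g) = (Z *ᵥ x) g := fun g =>
      sum_congr rfl fun j _ => congrArg (· * x j) (hZ g j)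
    simp only [← mulVec_mulVec]
    generalize Z *ᵥ x = z, (fromRows 1 U : Matrix (ι ⊕ o) ι 𝕜) *ᵥ x = y at h1 h2 ⊢
    have h3 : Gm *ᵥ Sum.elim (diagonal (fun h => ((√(ω (σ h)) : ℝ) : 𝕜)) *ᵥ z) y + In *ᵥ y =
        diagonal (fun t => ((Sum.elim ω 1 t : ℝ) : 𝕜)) *ᵥ Sum.elim z y := by
      funext s
      rcases s with s | s
      · rw [Pi.add_apply, g1]
        simp [In, mulVec_diagonal, hσ, h2, ← mul_assoc, ← RCLike.ofReal_mul,
          Real.mul_self_sqrt (w0 _)]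
      · rw [Pi.add_apply, g2]
        simp [In, mulVec_diagonal]
    rw [← mulVec_add, ← mulVec_add, h3, sub_mulVec, ← h1]
    funext s
    rcases s with s | s
    · have h4 : (√(ω (σ s)))⁻¹ * (1 - ω s) = √(ω (σ s)) := by
        rw [← w1 s, add_sub_cancel_left, inv_mul_eq_div, Real.div_sqrt]
      simp only [Cf, cf, mulVec_diagonal, Sum.elim_inl, Pi.sub_apply, Pi.one_apply, one_mul]
      conv_lhs => rw [← h4]
      push_cast
      ring
    · simp [Cf, cf, mulVec_diagonal]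

end Pool.Agent.MP_5daf37_lc.QT
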