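import Pool.Agent.MP_5daf37_lc.QT.Blk

/-!
A block scattering matrix without interference cannot carry a spread unitary matrix far.
-/

open Matrix Finset

namespace Pool.Agent.MP_5daf37_lc.QT

open BN TL

variable {𝕜 : Type} [RCLike 𝕜] {W L ι o l β : Type} [Fintype W] [Fintype L] [Fintype ι]
  [Fintype o] [Fintype l]

theorem dual [DecidableEq β] {B : Matrix L ι 𝕜} {g : L → β} {b : β}
    (h : ∀ u, (∀ a, u a ≠ 0 → g a = b) → nsq (u ᵥ* B) ≤ nsq u) (y : ι → 𝕜) :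
    nsq (part g (B *ᵥ y) b) ≤ nsq y := by
  set u := part g (B *ᵥ y) b with hu
  have h1 : (nsq u : 𝕜) = star (star (star u ᵥ* B)) ⬝ᵥ y := by
    rw [star_star, ← dotProduct_mulVec, nsq_eq]
    refine sum_congr rfl fun a _ => ?_
    by_cases e : g a = b <;> simp [hu, part, e]
  have h2 := cauchy (star (star u ᵥ* B)) y
  have h3 : ∀ {n : Type} [Fintype n] (v : n → 𝕜), nsq (star v) = nsq v := fun v => by simp [nsq]
  have h4 := h (star u) fun a ha => (part_ne (star_ne_zero.1 ha)).1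
  rw [← h1, RCLike.norm_ofReal, sq_abs, h3] at h2
  rw [h3] at h4
  rcases (nsq_nonneg u).eq_or_lt with e | e
  · exact e ▸ nsq_nonneg y
  · nlinarith [nsq_nonneg y]

theorem dual' {U : Matrix o ι 𝕜} (h : ∀ x, nsq (U *ᵥ x) ≤ nsq x) (y : o → 𝕜) :
    nsq (Uᴴ *ᵥ y) ≤ nsq y :=
  dual (g := fun _ => ()) (b := ()) (fun u _ => by
    have := h (star u)
    rw [← star_star u, ← star_mulVec]
    simpa [nsq] using this) y

theorem cross [DecidableEq β] [DecidableEq ι] {Ls : Matrix L (ι ⊕ o) 𝕜} {g : L → β}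
    (h : ∀ b u, (∀ a, u a ≠ 0 → g a = b) → nsq (u ᵥ* Ls) ≤ nsq u)
    {nr : β → ι ⊕ o → Prop} [∀ b c, Decidable (nr b c)] (h' : ∀ a c, Ls a c ≠ 0 → nr (g a) c)
    {U : Matrix o ι 𝕜} (hU : ∀ x, nsq (U *ᵥ x) ≤ nsq x) {τ : ℝ} (hτ : 0 < τ) :
    hs (Ls * (fromRows 1 U : Matrix (ι ⊕ o) ι 𝕜)) ≤ (1 + τ) * hs Ls +
      τ⁻¹ * ∑ b ∈ univ.image g, ∑ i with nr b (.inr i), ∑ j with nr b (.inl j), ‖U i j‖ ^ 2 := by
  let A := Ls.toCols₁
  let B := Ls.toCols₂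
  let Ub : β → ι → o → 𝕜 := fun b j i => if nr b (.inr i) ∧ nr b (.inl j) then U i j else 0
  have e1 : Ls * (fromRows 1 U : Matrix (ι ⊕ o) ι 𝕜) = A + B * U := by
    rw [← Ls.fromCols_toCols, fromCols_mul_fromRows, Matrix.mul_one]
  have e2 : hs Ls = hs A + hs B := by
    simp [hs, Fintype.sum_sum_type, sum_add_distrib, A, B]
  have e3 : hs (B * U) ≤ 1 * hs B := hs_mul_le B fun y => by
    rw [one_mul]; exact dual' hU y
  have e4 : ∀ a j, ‖(A + B * U) a j‖ ^ 2 ≤ (1 + τ) * ‖A a j‖ ^ 2 + ‖(B * U) a j‖ ^ 2 +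
      τ⁻¹ * ‖(B *ᵥ Ub (g a) j) a‖ ^ 2 := fun a j => by
    rw [Matrix.add_apply]
    by_cases e : A a j = 0
    · simp [e]
      positivity
    · have : (B *ᵥ Ub (g a) j) a = (B * U) a j := sum_congr rfl fun i _ => by
        by_cases e' : B a i = 0
        · simp [e']
        · exact congrArg _ (if_pos ⟨h' a _ e', h' a _ e⟩)
      rw [this]
      refine (pow_le_pow_left₀ (norm_nonneg _) (norm_add_le _ _) 2).trans ?_
      have h1 := mul_nonneg (inv_pos.2 hτ).le (sq_nonneg (τ * ‖A a j‖ - ‖(B * U) a j‖))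
      have h2 : τ⁻¹ * (τ * ‖A a j‖ - ‖(B * U) a j‖) ^ 2 = τ * ‖A a j‖ ^ 2 -
          2 * ‖A a j‖ * ‖(B * U) a j‖ + τ⁻¹ * ‖(B * U) a j‖ ^ 2 := by field_simp; ring
      nlinarith
  have e5 : ∑ a, ∑ j, ‖(B *ᵥ Ub (g a) j) a‖ ^ 2 ≤
      ∑ b ∈ univ.image g, ∑ i with nr b (.inr i), ∑ j with nr b (.inl j), ‖U i j‖ ^ 2 := by
    rw [← sum_fiberwise_of_maps_to (g := g) fun a _ => mem_image_of_mem g (mem_univ a)]
    refine sum_le_sum fun b _ => ?_
    rw [sum_comm]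
    refine (sum_le_sum fun j _ => le_of_eq_of_le ?_ (dual (B := B) (g := g) (b := b)
      (fun u hu => le_trans ?_ (h b u hu)) (Ub b j))).trans (le_of_eq ?_)
    · rw [sum_filter, nsq]
      refine sum_congr rfl fun a _ => ?_
      by_cases e : g a = b <;> simp [part, e]
    · rw [← Ls.fromCols_toCols, vecMul_fromCols, nsq_elim]
      exact le_add_of_nonneg_left (nsq_nonneg _)
    · simp only [nsq, sum_filter]
      rw [sum_comm]
      refine sum_congr rfl fun i _ => ?_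
      by_cases e : nr b (.inr i) <;> simp [Ub, e, apply_ite norm]
  have e6 : hs (A + B * U) ≤ (1 + τ) * hs A + hs (B * U) +
      τ⁻¹ * ∑ a, ∑ j, ‖(B *ᵥ Ub (g a) j) a‖ ^ 2 := by
    simp only [hs, mul_sum, ← sum_add_distrib]
    exact sum_le_sum fun a _ => sum_le_sum fun j _ => e4 a j
  have e7 : 0 ≤ hs B := sum_nonneg fun _ _ => sum_nonneg fun _ _ => sq_nonneg _
  rw [e1, e2]
  nlinarith [mul_le_mul_of_nonneg_left e5 (inv_pos.2 hτ).le, mul_nonneg hτ.le e7]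

theorem finish [DecidableEq W] [DecidableEq ι] {Am : Matrix W W 𝕜}
    {As : Matrix L W 𝕜} {Lm : Matrix W L 𝕜} {Ls : Matrix L L 𝕜} {T : Matrix L ι 𝕜}
    {Z : Matrix W ι 𝕜} {A : Matrix l ι 𝕜} {k N c : ℝ} (hk : 0 < k) (c0 : 0 < c) (c1 : c ≤ 1)
    (h1 : k * hs Am ≤ N) (h2 : 4 * k ^ 2 * hs As ≤ N) (h3 : hs Lm ≤ N)
    (h4 : hs (Ls * T) ≤ (1 + c / 8) * Fintype.card ι)
    (t0 : ∀ x, (1 + c) * nsq x ≤ nsq (T *ᵥ x)) (t3 : ∀ y, nsq (Tᴴ *ᵥ y) ≤ 2 * nsq y)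
    (hA : 32 * (A.rank : ℝ) ≤ c * Fintype.card ι)
    (hx : ∀ x, A *ᵥ x = 0 → Z *ᵥ x = Am *ᵥ Z *ᵥ x + Lm *ᵥ T *ᵥ x ∧
      T *ᵥ x = As *ᵥ Z *ᵥ x + Ls *ᵥ T *ᵥ x) : c ^ 2 * k * Fintype.card ι ≤ 32 * N := by
  obtain ⟨S, s1, s2⟩ := cut (fromRows (((2 : ℝ) : 𝕜) • Am) (((√(10 * k) : ℝ) : 𝕜) • As))
  rw [hs_rows, hs_smul, hs_smul, Real.sq_sqrt (by positivity)] at s1
  have e1 := le_trace (fromRows (((√(1 + c / 4) : ℝ) : 𝕜) • (Ls * T))
    (((√(2 / (c * k)) : ℝ) : 𝕜) • (Lm * T))) A (S * Z) (c := 1 + c) (by positivity)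
    fun x x1 x2 => by
      obtain ⟨x3, x4⟩ := hx x x1
      have x5 := s2 (Z *ᵥ x) (by rwa [mulVec_mulVec])
      rw [fromRows_mulVec, nsq_elim, smul_mulVec, smul_mulVec, nsq_smul, nsq_smul,
        Real.sq_sqrt (by positivity)] at x5 ⊢
      rw [Real.sq_sqrt (by positivity), ← mulVec_mulVec, ← mulVec_mulVec]
      have x6 := nsq_add_le (Am *ᵥ Z *ᵥ x) (Lm *ᵥ T *ᵥ x) one_pos (mul_one 1)
      have x7 := nsq_add_le (As *ᵥ Z *ᵥ x) (Ls *ᵥ T *ᵥ x) (a := 4 / c) (b := c / 4)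
        (by positivity) (by field_simp)
      rw [← x3] at x6
      rw [← x4] at x7
      have x8 := nsq_nonneg (As *ᵥ Z *ᵥ x)
      have x9 := nsq_nonneg (Am *ᵥ Z *ᵥ x)
      have x10 : 0 ≤ 10 * k * nsq (As *ᵥ Z *ᵥ x) := by positivity
      have x11 : (1 + 4 / c) * nsq (As *ᵥ Z *ᵥ x) ≤ 2 / (c * k) * nsq (Lm *ᵥ T *ᵥ x) := by
        have : (1 + 4 / c) * nsq (As *ᵥ Z *ᵥ x) * (c * k) = (c + 4) * (k * nsq (As *ᵥ Z *ᵥ x)) := by
          field_simp
        rw [div_mul_eq_mul_div, le_div_iff₀ (by positivity), this]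
        nlinarith [mul_nonneg hk.le x8]
      linarith [t0 x]
  rw [hs_eq, hs_rows, hs_smul, hs_smul, Real.sq_sqrt (by positivity),
    Real.sq_sqrt (by positivity)] at e1
  have e3 := hs_mul_le Lm t3
  have e4 : ((S * Z).rank : ℝ) ≤ S.rank := by exact_mod_cast rank_mul_le_left S Z
  have e6 : (0 : ℝ) ≤ Fintype.card ι := Nat.cast_nonneg _
  have e7 : c * (2 / (c * k) * hs (Lm * T)) ≤ 4 * (N / k) := by
    rw [← mul_assoc, ← mul_div_assoc, mul_div_mul_left _ _ c0.ne', div_mul_eq_mul_div,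
      ← mul_div_assoc]
    exact div_le_div_of_nonneg_right (by linarith) hk.le
  have e8 : hs Am ≤ N / k := by rw [le_div_iff₀ hk]; linarith
  have e9 : 4 * (k * hs As) ≤ N / k := by rw [le_div_iff₀ hk]; linarith
  have e10 : 0 ≤ N / k := le_trans (sum_nonneg fun _ _ => sum_nonneg fun _ _ => sq_nonneg _) e8
  have e12 : (A.rank : ℝ) + (S * Z).rank ≤ c * Fintype.card ι / 32 + 13 / 2 * (N / k) := by
    nlinarith
  have e13 := mul_le_mul_of_nonneg_left h4 (by positivity : 0 ≤ 1 + c / 4)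
  have e14 := mul_le_mul (by linarith : 1 + c ≤ 2) e12 (by positivity) zero_le_two
  have e15 := mul_le_mul_of_nonneg_right (mul_le_of_le_one_right c0.le c1) e6
  have e16 : 17 / 32 * (c * Fintype.card ι) ≤ 13 * (N / k) + 2 / (c * k) * hs (Lm * T) := by
    nlinarith
  have e11 : c ^ 2 * (Fintype.card ι : ℝ) ≤ 32 * (N / k) := by
    nlinarith [mul_le_mul_of_nonneg_left e16 c0.le, mul_le_of_le_one_left e10 c1]
  rw [← mul_div_assoc, le_div_iff₀ hk] at e11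
  linarith

theorem scat [DecidableEq W] [DecidableEq ι] [DecidableEq o] [DecidableEq β] {V : Type}
    {X : Matrix (W ⊕ (ι ⊕ o)) (W ⊕ (ι ⊕ o)) 𝕜} {Y : Matrix (W ⊕ (ι ⊕ o)) (ι ⊕ o) 𝕜} {k : ℕ}
    {blk : W ⊕ (ι ⊕ o) → β} {R : β → ℕ → β → Prop} {pos pre : β → V} {pre' : ι ⊕ o → V}
    (F : Free X Y k blk R pos pre pre') (X0 : ∀ s b, X s (.inr b) = 0)
    (r3 : ∑ a, (nsq (X (.inr a)) + nsq (Y (.inr a))) ≤ Fintype.card ι)
    {π : W → ℝ} (p0 : ∀ h, 0 ≤ π h) (p1 : ∀ h, 4 * π h ≤ 1)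
    (col : ∀ b y, (∀ c, y c ≠ 0 → blk c = b) →
      ∑ s, Sum.elim π 1 s * ‖(X *ᵥ y) s‖ ^ 2 ≤ ∑ h, π h * ‖y (.inl h)‖ ^ 2)
    {nr : β → ι ⊕ o → Prop} [∀ b c, Decidable (nr b c)]
    (hn : ∀ a, ∀ i ≤ k, ∀ b c, R (blk (.inr a)) i b → pos b = pre' c → nr (blk (.inr a)) c)
    {U : Matrix o ι 𝕜} {c : ℝ} (c0 : 0 < c)
    (hU : ∀ x, c * nsq x ≤ nsq (U *ᵥ x) ∧ nsq (U *ᵥ x) ≤ nsq x)
    (hf : 256 * ∑ b ∈ univ.image fun a => blk (.inr a), ∑ i with nr b (.inr i),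
      ∑ j with nr b (.inl j), ‖U i j‖ ^ 2 ≤ c ^ 2 * Fintype.card ι)
    {Z : Matrix W ι 𝕜} {A : Matrix l ι 𝕜} (hA : 32 * (A.rank : ℝ) ≤ c * Fintype.card ι)
    (hx : ∀ x, A *ᵥ x = 0 → Sum.elim (Z *ᵥ x) (fromRows 1 U *ᵥ x) =
      X *ᵥ Sum.elim (Z *ᵥ x) (fromRows 1 U *ᵥ x) + Y *ᵥ fromRows 1 U *ᵥ x) :
    c ^ 2 * k * Fintype.card ι ≤ 32 * Fintype.card W := by
  rcases k.eq_zero_or_pos with rfl | hk
  · simp
  rcases isEmpty_or_nonempty ι with h | ⟨⟨j⟩⟩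
  · simp
  have c1 : c ≤ 1 := by
    simpa [nsq, Pi.single_apply, apply_ite norm] using (hU (Pi.single j 1)).1.trans (hU _).2
  have k0 : (0 : ℝ) < k := by exact_mod_cast hk
  set P := ∑ j ∈ range k, X ^ (j + 1) with hP
  set A' := (((k : ℝ)⁻¹ : ℝ) : 𝕜) • P with hA'
  set L' := (((k : ℝ)⁻¹ : ℝ) : 𝕜) • ∑ j ∈ range k, ∑ i ∈ range (j + 1), X ^ i * Y with hL'
  have a0 : ∀ s t, (k : ℝ) ^ 2 * ‖A' s t‖ ^ 2 = ‖P s t‖ ^ 2 := fun s t => by
    rw [hA', Matrix.smul_apply, smul_eq_mul, norm_mul, RCLike.norm_ofReal,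
      abs_of_pos (inv_pos.2 k0)]
    field_simp
  have a1 : ∀ s b, A' s (.inr b) = 0 := fun s b => by
    simp [hA', hP, Matrix.sum_apply, pow_succ, mul_apply, X0]
  have a2 : ∀ s c, (Pi.single s 1 : W ⊕ (ι ⊕ o) → 𝕜) c ≠ 0 → blk c = blk s := fun s c hc =>
    congrArg blk (by_contra fun e => hc (Pi.single_eq_of_ne e _))
  have l0 : ∀ s, nsq (L' s) ≤ nsq (X s) + nsq (Y s) := fun s => by
    have := F.avg_row hk (a2 s)
    simp only [single_one_vecMul] at this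
    exact this
  have l1 : ∀ s, nsq (X s) + nsq (Y s) ≤ 1 := fun s => by
    have := F.row _ _ (a2 s)
    simp only [single_one_vecMul] at this
    exact this.trans (by simp [nsq, Pi.single_apply, apply_ite norm])
  refine finish (Am := A'.submatrix .inl .inl) (As := A'.submatrix .inr .inl)
    (Lm := L'.submatrix .inl id) (Ls := L'.submatrix .inr id) (T := fromRows 1 U) (Z := Z) (A := A)
    k0 c0 c1 ?_ ?_ ?_ ?_ (fun x => ?_) (fun y => ?_) hA fun x h => ?_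
  · refine le_of_mul_le_mul_left ?_ k0
    rw [← mul_assoc, ← sq, hs, mul_sum, ← card_univ, mul_comm, ← nsmul_eq_mul, ← sum_const]
    refine sum_le_sum fun s _ => le_trans ?_ (F.sum_row (.inl s))
    rw [mul_sum, Fintype.sum_sum_type]
    exact le_add_of_le_of_nonneg (sum_le_sum fun t _ => (a0 _ _).le)
      (sum_nonneg fun b _ => by positivity)
  · rw [hs, sum_comm, mul_sum]
    refine (sum_le_sum (g := fun _ => (1 : ℝ)) fun t _ => le_trans ?_ (p1 t)).trans (by simp)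
    have h1 := F.sum_col (p := Sum.elim 0 1) (q := Sum.elim π 0)
      (by rintro (t | t); exacts [le_rfl, zero_le_one]) (by rintro (t | t); exacts [p0 t, le_rfl])
      (fun b y hy => by simpa [Fintype.sum_sum_type (α₁ := W)] using col b y hy) (.inl t)
    simp only [Fintype.sum_sum_type (α₁ := W), Sum.elim_inl, Sum.elim_inr, Pi.zero_apply,
      Pi.one_apply, zero_mul, sum_const_zero, zero_add, one_mul] at h1
    rw [mul_assoc, mul_sum]
    exact mul_le_mul_of_nonneg_left ((sum_le_sum fun a _ => (a0 _ _).le).trans h1) (by norm_num)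
  · exact (sum_le_sum (g := fun _ => (1 : ℝ)) fun s _ => (l0 (.inl s)).trans (l1 _)).trans
      (by simp)
  · have h1 := cross (Ls := L'.submatrix .inr id) (g := fun a => blk (.inr a)) (nr := nr)
      (fun b u hu => by
        have h2 : ∀ c, Sum.elim (0 : W → 𝕜) u c ≠ 0 → blk c = b := by
          rintro (c | c) h
          exacts [absurd rfl h, hu c h]
        have h3 := (F.avg_row hk h2).trans (F.row _ _ h2)
        rw [nsq_elim, ← hL'] at h3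
        refine le_of_eq_of_le (congrArg nsq (funext fun c => ?_)) (h3.trans (by simp [nsq]))
        simp [vecMul, dotProduct, Fintype.sum_sum_type (α₁ := W)])
      (fun a c h => let ⟨i, a1, b, a2, a3⟩ := F.avg_supp h; hn a i a1 b c a2 a3)
      (fun x => (hU x).2) (τ := c / 16) (by positivity)
    have h2 : hs (L'.submatrix Sum.inr id) ≤ Fintype.card ι :=
      (sum_le_sum fun s _ => l0 (.inr s)).trans r3
    have h3 := mul_le_mul_of_nonneg_left hf (by positivity : 0 ≤ (c / 16)⁻¹ / 256)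
    have h4 : (c / 16)⁻¹ / 256 * (c ^ 2 * Fintype.card ι) = c / 16 * Fintype.card ι := by
      field_simp; ring
    have h5 := mul_le_mul_of_nonneg_left h2 (by positivity : 0 ≤ 1 + c / 16)
    linarith
  · rw [fromRows_mulVec, nsq_elim, one_mulVec]
    linarith [(hU x).1]
  · obtain ⟨y, v, rfl⟩ : ∃ a b, y = Sum.elim a b := ⟨_, _, (Sum.elim_comp_inl_inr y).symm⟩
    rw [conjTranspose_fromRows_eq_fromCols_conjTranspose, fromCols_mulVec_sumElim, nsq_elim,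
      conjTranspose_one, one_mulVec]
    have := nsq_add_le y (Uᴴ *ᵥ v) one_pos (mul_one 1)
    linarith [dual' (fun x => (hU x).2) v]
  · have h1 := unroll_avg (hx x h) hk
    rw [← hP, ← hA', ← hL'] at h1
    generalize Z *ᵥ x = u, (fromRows 1 U : Matrix (ι ⊕ o) ι 𝕜) *ᵥ x = y at h1 ⊢
    constructor <;> funext s
    · simpa [mulVec, dotProduct, Fintype.sum_sum_type (α₁ := W), a1] using congrFun h1 (.inl s)
    · simpa [mulVec, dotProduct, Fintype.sum_sum_type (α₁ := W), a1] using congrFun h1 (.inr s)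

end Pool.Agent.MP_5daf37_lc.QT
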